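import Mathlib

/-!
Labelled clique counts, blow-ups of samples, and a second-moment argument.
-/

set_option autoImplicit false

namespace Pool.Agent.R85.CS

open Finset SimpleGraph Classical

variable {V W : Type}

/-- `g` is a labelled clique of `G`. -/
def Lab {k : ℕ} (G : SimpleGraph V) (g : Fin k → V) : Prop := ∀ i j, i ≠ j → G.Adj (g i) (g j)

/-- The number of labelled `k`-cliques. -/
noncomputable def hc [Fintype V] (G : SimpleGraph V) (k : ℕ) : ℕ :=
  #(univ.filter (fun g : Fin k → V => Lab G g))

/-- The number of ordered adjacent pairs. -/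
noncomputable def zc [Fintype V] (G : SimpleGraph V) : ℕ :=
  #(univ.filter (fun p : V × V => G.Adj p.1 p.2))

theorem Lab.injective {k : ℕ} {G : SimpleGraph V} {g : Fin k → V} (h : Lab G g) :
    Function.Injective g := by
  intro i j hij
  by_contra hne
  exact (h i j hne).ne hij

/-- Labelled cliques are `k!` times the cliques. -/
theorem hc_eq [Fintype V] (G : SimpleGraph V) (k : ℕ) :
    hc G k = k.factorial * {S : Finset V | G.IsNClique k S}.ncard := by
  have hset : {S : Finset V | G.IsNClique k S}.ncard =
      #(univ.filter (fun S : Finset V => G.IsNClique k S)) := by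
    rw [← Set.ncard_coe_finset]
    congr 1
    ext S
    simp
  rw [hset, hc, card_eq_sum_card_fiberwise (f := fun g : Fin k → V => univ.image g)
    (t := univ.filter (fun S : Finset V => G.IsNClique k S))]
  · rw [mul_comm, ← smul_eq_mul, ← sum_const]
    apply sum_congr rfl
    intro S hS
    rw [mem_filter] at hS
    have hcl := hS.2
    -- the fibre is the set of embeddings of `Fin k` into `S`
    have h1 : #(univ.filter (fun g : Fin k → V => Lab G g) |>.filter (fun g => univ.image g = S)) =
        Fintype.card (Fin k ↪ S) := by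
      rw [← card_univ]
      symm
      apply card_bij (fun (φ : Fin k ↪ S) _ => fun i => (φ i).1)
      · intro φ _
        have hinj : Function.Injective (fun i => (φ i).1) :=
          Subtype.val_injective.comp φ.injective
        rw [mem_filter, mem_filter]
        refine ⟨⟨mem_univ _, ?_⟩, ?_⟩
        · intro i j hij
          exact hcl.1 (φ i).2 (φ j).2 (fun h => hij (hinj h))
        · apply eq_of_subset_of_card_le
          · intro v hv
            rw [mem_image] at hv
            obtain ⟨i, _, rfl⟩ := hv
            exact (φ i).2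
          · rw [card_image_of_injective _ hinj, hcl.2, card_univ, Fintype.card_fin]
      · intro φ _ ψ _ h
        ext i
        exact congrFun h i
      · intro g hg
        rw [mem_filter, mem_filter] at hg
        obtain ⟨⟨_, hlab⟩, him⟩ := hg
        refine ⟨⟨fun i => ⟨g i, by rw [← him]; exact mem_image_of_mem _ (mem_univ _)⟩, ?_⟩,
          mem_univ _, ?_⟩
        · intro i j hij
          exact hlab.injective (by simpa using hij)
        · rfl
    rw [h1, Fintype.card_embedding_eq, Fintype.card_coe, hcl.2, Fintype.card_fin,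
      Nat.descFactorial_self]
  · intro g hg
    rw [mem_coe, mem_filter] at hg
    rw [mem_coe, mem_filter]
    refine ⟨mem_univ _, ?_, ?_⟩
    · intro a ha b hb hab
      rw [mem_coe, mem_image] at ha hb
      obtain ⟨i, _, rfl⟩ := ha
      obtain ⟨j, _, rfl⟩ := hb
      exact hg.2 i j (fun h => hab (by rw [h]))
    · rw [card_image_of_injective _ hg.2.injective, card_univ, Fintype.card_fin]

theorem zc_eq [Fintype V] (G : SimpleGraph V) : zc G = 2 * G.edgeSet.ncard := by
  have h1 : G.edgeSet.ncard = #G.edgeFinset := by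
    rw [← coe_edgeFinset, Set.ncard_coe_finset]
  rw [h1, ← G.sum_degrees_eq_twice_card_edges, zc]
  simp only [card_filter]
  rw [← univ_product_univ, sum_product]
  apply sum_congr rfl
  intro v _
  rw [← card_neighborFinset_eq_degree, neighborFinset_eq_filter, card_filter]

/-- Pull-back of a graph along a map. -/
def pull {U : Type} (G : SimpleGraph W) (f : U → W) : SimpleGraph U where
  Adj a b := G.Adj (f a) (f b)
  symm := ⟨fun _ _ h => G.symm.symm _ _ h⟩
  loopless := ⟨fun _ h => G.loopless.irrefl _ h⟩

theorem lab_pull {U : Type} {k : ℕ} (G : SimpleGraph W) (f : U → W) (g : Fin k → U) :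
    Lab (pull G f) g ↔ Lab G (f ∘ g) := Iff.rfl

/-- Blow-up: pull-back along the projection. -/
theorem hc_blowup {U : Type} [Fintype U] (P : SimpleGraph U) (b k : ℕ) :
    hc (pull P (Prod.fst : U × Fin b → U)) k = b ^ k * hc P k := by
  have h1 : hc (pull P (Prod.fst : U × Fin b → U)) k =
      #((univ.filter (fun g : Fin k → U => Lab P g)) ×ˢ (univ : Finset (Fin k → Fin b))) := by
    rw [hc]
    apply card_bij (fun (g : Fin k → U × Fin b) _ => ((fun i => (g i).1), (fun i => (g i).2)))
    · intro g hg
      rw [mem_filter] at hg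
      rw [mem_product, mem_filter]
      exact ⟨⟨mem_univ _, hg.2⟩, mem_univ _⟩
    · intro g _ g' _ h
      rw [Prod.mk.injEq] at h
      funext i
      exact Prod.ext (congrFun h.1 i) (congrFun h.2 i)
    · rintro ⟨g, c⟩ hg
      rw [mem_product, mem_filter] at hg
      exact ⟨fun i => (g i, c i), by rw [mem_filter]; exact ⟨mem_univ _, hg.1.2⟩, rfl⟩
  rw [h1, card_product, card_univ, Fintype.card_fun, Fintype.card_fin, Fintype.card_fin, mul_comm]
  rfl

theorem zc_blowup {U : Type} [Fintype U] (P : SimpleGraph U) (b : ℕ) :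
    zc (pull P (Prod.fst : U × Fin b → U)) = b ^ 2 * zc P := by
  have h1 : zc (pull P (Prod.fst : U × Fin b → U)) =
      #((univ.filter (fun p : U × U => P.Adj p.1 p.2)) ×ˢ (univ : Finset (Fin b × Fin b))) := by
    rw [zc]
    apply card_bij (fun (p : (U × Fin b) × (U × Fin b)) _ => ((p.1.1, p.2.1), (p.1.2, p.2.2)))
    · intro p hp
      rw [mem_filter] at hp
      rw [mem_product, mem_filter]
      exact ⟨⟨mem_univ _, hp.2⟩, mem_univ _⟩
    · intro p _ q _ h
      simp only [Prod.mk.injEq] at h
      exact Prod.ext (Prod.ext h.1.1 h.2.1) (Prod.ext h.1.2 h.2.2)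
    · rintro ⟨p, c⟩ hp
      rw [mem_product, mem_filter] at hp
      exact ⟨((p.1, c.1), (p.2, c.2)), by rw [mem_filter]; exact ⟨mem_univ _, hp.1.2⟩, rfl⟩
  rw [h1, card_product, card_univ, Fintype.card_prod, Fintype.card_fin, mul_comm, sq]
  rfl

/-- Summation over all extensions along an injection. -/
theorem sum_pullback [Fintype W] [Nonempty W] {k t : ℕ} (ι : Fin k → Fin t)
    (hι : Function.Injective ι) (F : (Fin k → W) → ℝ) :
    ∑ f : Fin t → W, F (f ∘ ι) =
      (Fintype.card W : ℝ) ^ t / (Fintype.card W : ℝ) ^ k * ∑ g : Fin k → W, F g := by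
  let e : (Fin t → W) ≃ (Fin k → W) × ({x // ¬ (x ∈ Set.range ι)} → W) :=
    (Equiv.piEquivPiSubtypeProd (· ∈ Set.range ι) (fun _ => W)).trans
      (Equiv.prodCongr (Equiv.arrowCongr (Equiv.ofInjective ι hι).symm (Equiv.refl _))
        (Equiv.refl _))
  have he : ∀ f : Fin t → W, (e f).1 = f ∘ ι := by
    intro f
    funext i
    simp [e, Equiv.arrowCongr, Equiv.piEquivPiSubtypeProd]
  have h1 : ∑ f : Fin t → W, F (f ∘ ι) =
      ∑ p : (Fin k → W) × ({x // ¬ (x ∈ Set.range ι)} → W), F p.1 := by
    rw [← Equiv.sum_comp e]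
    apply sum_congr rfl
    intro f _
    rw [he]
  rw [h1, ← univ_product_univ, sum_product]
  simp only [sum_const, nsmul_eq_mul, card_univ]
  rw [← mul_sum]
  congr 1
  have hcard : Fintype.card {x // ¬ (x ∈ Set.range ι)} + k = t := by
    have h2 := Fintype.card_congr (Equiv.sumCompl (fun x : Fin t => x ∈ Set.range ι))
    rw [Fintype.card_sum, Fintype.card_fin] at h2
    have h3 : Fintype.card {x // x ∈ Set.range ι} = k := by
      rw [← Fintype.card_congr (Equiv.ofInjective ι hι), Fintype.card_fin]
    omega
  have hW : (0 : ℝ) < Fintype.card W := by exact_mod_cast Fintype.card_pos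
  rw [Fintype.card_fun, eq_div_iff (by positivity), Nat.cast_pow, ← pow_add, hcard]

end Pool.Agent.R85.CS
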