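import Pool.Agent.R85.CliqueSample

set_option autoImplicit false

namespace Pool.Agent.R85.CS

open Finset SimpleGraph Classical

variable {V W : Type}

/-- First moment of labelled clique counts of a random sample. -/
theorem sum_hc_pull [Fintype W] [Nonempty W] (G : SimpleGraph W) (t k : ℕ) :
    ∑ f : Fin t → W, (hc (pull G f) k : ℝ) =
      (t.descFactorial k : ℝ) * ((Fintype.card W : ℝ) ^ t / (Fintype.card W : ℝ) ^ k * hc G k) := by
  have h1 : ∀ f : Fin t → W, (hc (pull G f) k : ℝ) =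
      ∑ φ : Fin k → Fin t, if Lab G (f ∘ φ) then (1 : ℝ) else 0 := by
    intro f
    rw [hc, card_filter]
    push_cast
    rfl
  simp only [h1]
  rw [sum_comm]
  have h2 : ∀ φ : Fin k → Fin t, ∑ f : Fin t → W, (if Lab G (f ∘ φ) then (1 : ℝ) else 0) =
      if Function.Injective φ then
        ((Fintype.card W : ℝ) ^ t / (Fintype.card W : ℝ) ^ k * hc G k) else 0 := by
    intro φ
    split_ifs with hφ
    · rw [sum_pullback φ hφ (fun g => if Lab G g then (1 : ℝ) else 0)]
      congr 1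
      rw [hc, card_filter]
      push_cast
      rfl
    · apply sum_eq_zero
      intro f _
      rw [if_neg]
      intro hlab
      exact hφ (hlab.injective.of_comp)
  simp only [h2]
  rw [← sum_filter, sum_const, nsmul_eq_mul]
  congr 2
  have h3 : #(univ.filter (fun φ : Fin k → Fin t => Function.Injective φ)) =
      Fintype.card (Fin k ↪ Fin t) := by
    rw [← card_univ]
    symm
    apply card_bij (fun (φ : Fin k ↪ Fin t) _ => (φ : Fin k → Fin t))
    · intro φ _
      rw [mem_filter]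
      exact ⟨mem_univ _, φ.injective⟩
    · intro φ _ ψ _ h
      exact DFunLike.coe_injective h
    · intro φ hφ
      rw [mem_filter] at hφ
      exact ⟨⟨φ, hφ.2⟩, mem_univ _, rfl⟩
  rw [h3, Fintype.card_embedding_eq, Fintype.card_fin, Fintype.card_fin]

/-- adjacency as a real number -/
noncomputable def ad (G : SimpleGraph W) (x y : W) : ℝ := if G.Adj x y then 1 else 0

theorem ad_nonneg (G : SimpleGraph W) (x y : W) : 0 ≤ ad G x y := by
  unfold ad; split_ifs <;> norm_num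

theorem ad_le_one (G : SimpleGraph W) (x y : W) : ad G x y ≤ 1 := by
  unfold ad; split_ifs <;> norm_num

theorem zc_pull_eq [Fintype W] (G : SimpleGraph W) {t : ℕ} (f : Fin t → W) :
    (zc (pull G f) : ℝ) = ∑ p : Fin t × Fin t, ad G (f p.1) (f p.2) := by
  rw [zc, card_filter]
  push_cast
  rfl

theorem zc_eq_sum [Fintype W] (G : SimpleGraph W) :
    (zc G : ℝ) = ∑ p : W × W, ad G p.1 p.2 := by
  rw [zc, card_filter]
  push_cast
  rfl

theorem zc_le [Fintype W] (G : SimpleGraph W) : (zc G : ℝ) ≤ (Fintype.card W : ℝ) ^ 2 := by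
  rw [zc_eq_sum]
  calc ∑ p : W × W, ad G p.1 p.2 ≤ ∑ _p : W × W, (1 : ℝ) := sum_le_sum (fun p _ => ad_le_one G _ _)
    _ = _ := by simp [sq]

/-- pair sums -/
theorem pair_sum [Fintype W] [Nonempty W] (G : SimpleGraph W) {t : ℕ} (i j : Fin t) (hij : i ≠ j) :
    ∑ f : Fin t → W, ad G (f i) (f j) =
      (Fintype.card W : ℝ) ^ t * (zc G / (Fintype.card W : ℝ) ^ 2) := by
  have hinj : Function.Injective ![i, j] := by
    intro a b hab
    fin_cases a <;> fin_cases b <;> simp_all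
  have h := sum_pullback (W := W) ![i, j] hinj (fun g => ad G (g 0) (g 1))
  simp only [Function.comp_apply, Matrix.cons_val_zero, Matrix.cons_val_one] at h
  rw [h]
  have h2 : ∑ g : Fin 2 → W, ad G (g 0) (g 1) = zc G := by
    rw [zc_eq_sum, ← Equiv.sum_comp (finTwoArrowEquiv W)]
    rfl
  rw [h2]
  ring

theorem quad_sum [Fintype W] [Nonempty W] (G : SimpleGraph W) {t : ℕ} (p q : Fin t × Fin t) :
    ∑ f : Fin t → W, ad G (f p.1) (f p.2) * ad G (f q.1) (f q.2) ≤
      (Fintype.card W : ℝ) ^ t * ((zc G / (Fintype.card W : ℝ) ^ 2) ^ 2 +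
        ((if p.1 = q.1 then 1 else 0) + (if p.1 = q.2 then 1 else 0) +
         (if p.2 = q.1 then 1 else 0) + (if p.2 = q.2 then 1 else 0))) := by
  obtain ⟨i, j⟩ := p
  obtain ⟨k, l⟩ := q
  simp only
  have hW : (0 : ℝ) < Fintype.card W := by exact_mod_cast Fintype.card_pos
  have hgen : ∑ f : Fin t → W, ad G (f i) (f j) * ad G (f k) (f l) ≤ (Fintype.card W : ℝ) ^ t := by
    calc ∑ f : Fin t → W, ad G (f i) (f j) * ad G (f k) (f l) ≤ ∑ _f : Fin t → W, (1 : ℝ) := by
          apply sum_le_sum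
          intro f _
          exact mul_le_one₀ (ad_le_one _ _ _) (ad_nonneg _ _ _) (ad_le_one _ _ _)
      _ = _ := by simp
  have hind : ∀ (P : Prop) [Decidable P], (0 : ℝ) ≤ if P then 1 else 0 := by
    intro P _; split_ifs <;> norm_num
  have hsq : 0 ≤ ((zc G : ℝ) / (Fintype.card W : ℝ) ^ 2) ^ 2 := by positivity
  by_cases h1 : i = j
  · have : ∀ f : Fin t → W, ad G (f i) (f j) * ad G (f k) (f l) = 0 := by
      intro f
      rw [h1]
      have : ad G (f j) (f j) = 0 := by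
        unfold ad
        rw [if_neg (G.loopless.irrefl _)]
      rw [this, zero_mul]
    rw [sum_eq_zero (fun f _ => this f)]
    have a1 := hind (i = k)
    have a2 := hind (i = l)
    have a3 := hind (j = k)
    have a4 := hind (j = l)
    positivity
  by_cases h2 : k = l
  · have : ∀ f : Fin t → W, ad G (f i) (f j) * ad G (f k) (f l) = 0 := by
      intro f
      rw [h2]
      have : ad G (f l) (f l) = 0 := by
        unfold ad
        rw [if_neg (G.loopless.irrefl _)]
      rw [this, mul_zero]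
    rw [sum_eq_zero (fun f _ => this f)]
    have a1 := hind (i = k)
    have a2 := hind (i = l)
    have a3 := hind (j = k)
    have a4 := hind (j = l)
    positivity
  by_cases h3 : i = k ∨ i = l ∨ j = k ∨ j = l
  · refine hgen.trans ?_
    have a1 := hind (i = k)
    have a2 := hind (i = l)
    have a3 := hind (j = k)
    have a4 := hind (j = l)
    have hone : (1 : ℝ) ≤ (if i = k then 1 else 0) + (if i = l then 1 else 0) +
        (if j = k then 1 else 0) + (if j = l then 1 else 0) := by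
      rcases h3 with h | h | h | h
      · rw [if_pos h] at a1 ⊢; linarith
      · rw [if_pos h] at a2 ⊢; linarith
      · rw [if_pos h] at a3 ⊢; linarith
      · rw [if_pos h] at a4 ⊢; linarith
    have hpow : (0 : ℝ) < (Fintype.card W : ℝ) ^ t := by positivity
    nlinarith
  · push Not at h3
    obtain ⟨h4, h5, h6, h7⟩ := h3
    have hinj : Function.Injective ![i, j, k, l] := by
      intro a b hab
      fin_cases a <;> fin_cases b <;> simp_all
    have h := sum_pullback (W := W) ![i, j, k, l] hinj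
      (fun g => ad G (g 0) (g 1) * ad G (g 2) (g 3))
    have h' : ∑ f : Fin t → W, ad G (f i) (f j) * ad G (f k) (f l) =
        (Fintype.card W : ℝ) ^ t / (Fintype.card W : ℝ) ^ 4 *
          ∑ g : Fin 4 → W, ad G (g 0) (g 1) * ad G (g 2) (g 3) := h
    rw [h']
    have h8 : ∑ g : Fin 4 → W, ad G (g 0) (g 1) * ad G (g 2) (g 3) = (zc G : ℝ) ^ 2 := by
      let e : (Fin 4 → W) ≃ (W × W) × (W × W) :=
        { toFun := fun g => ((g 0, g 1), (g 2, g 3))
          invFun := fun p => ![p.1.1, p.1.2, p.2.1, p.2.2]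
          left_inv := by
            intro g
            funext a
            fin_cases a <;> rfl
          right_inv := by
            rintro ⟨⟨a, b⟩, ⟨c, d⟩⟩
            rfl }
      have h9 : ∑ g : Fin 4 → W, ad G (g 0) (g 1) * ad G (g 2) (g 3) =
          ∑ p : (W × W) × (W × W), ad G p.1.1 p.1.2 * ad G p.2.1 p.2.2 := by
        rw [← Equiv.sum_comp e]
        rfl
      rw [h9, ← univ_product_univ, sum_product, sq, zc_eq_sum, sum_mul_sum]
    rw [h8, if_neg h4, if_neg h5, if_neg h6, if_neg h7]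
    apply le_of_eq
    ring

/-- Variance bound for the number of ordered adjacent pairs in a random sample. -/
theorem variance_le [Fintype W] [Nonempty W] (G : SimpleGraph W) (t : ℕ) :
    ∑ f : Fin t → W, ((zc (pull G f) : ℝ) - (t : ℝ) ^ 2 * (zc G / (Fintype.card W : ℝ) ^ 2)) ^ 2 ≤
      6 * (t : ℝ) ^ 3 * (Fintype.card W : ℝ) ^ t := by
  set N : ℝ := (Fintype.card W : ℝ) with hN
  have hNpos : 0 < N := by rw [hN]; exact_mod_cast Fintype.card_pos
  set p₀ : ℝ := zc G / N ^ 2 with hp₀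
  have hp0 : 0 ≤ p₀ := by positivity
  have hp1 : p₀ ≤ 1 := by
    rw [hp₀, div_le_one (by positivity)]
    exact zc_le G
  have hfirst : ∑ f : Fin t → W, (zc (pull G f) : ℝ) = (t : ℝ) * ((t : ℝ) - 1) * (N ^ t * p₀) := by
    simp only [zc_pull_eq]
    rw [sum_comm]
    have h2 : ∀ p : Fin t × Fin t, ∑ f : Fin t → W, ad G (f p.1) (f p.2) =
        (if p.1 = p.2 then 0 else N ^ t * p₀) := by
      intro p
      split_ifs with h
      · apply sum_eq_zero
        intro f _
        unfold ad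
        rw [h, if_neg (G.loopless.irrefl _)]
      · exact pair_sum G p.1 p.2 h
    simp only [h2]
    rw [← univ_product_univ, sum_product]
    have h3 : ∀ i : Fin t, ∑ j : Fin t, (if i = j then (0 : ℝ) else N ^ t * p₀) =
        ((t : ℝ) - 1) * (N ^ t * p₀) := by
      intro i
      have h4 : ∀ j : Fin t, (if i = j then (0 : ℝ) else N ^ t * p₀) =
          N ^ t * p₀ - if i = j then N ^ t * p₀ else 0 := by
        intro j; split_ifs <;> simp
      simp only [h4]
      rw [sum_sub_distrib, sum_const, card_univ, Fintype.card_fin, nsmul_eq_mul,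
        sum_ite_eq, if_pos (mem_univ _)]
      ring
    simp only [h3]
    rw [sum_const, card_univ, Fintype.card_fin, nsmul_eq_mul]
    ring
  have hsecond : ∑ f : Fin t → W, (zc (pull G f) : ℝ) ^ 2 ≤
      N ^ t * ((t : ℝ) ^ 4 * p₀ ^ 2 + 4 * (t : ℝ) ^ 3) := by
    have h1 : ∀ f : Fin t → W, (zc (pull G f) : ℝ) ^ 2 =
        ∑ p : Fin t × Fin t, ∑ q : Fin t × Fin t,
          ad G (f p.1) (f p.2) * ad G (f q.1) (f q.2) := by
      intro f
      rw [zc_pull_eq, sq, sum_mul_sum]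
    simp only [h1]
    rw [sum_comm]
    have h2 : ∀ p : Fin t × Fin t, ∑ f : Fin t → W, ∑ q : Fin t × Fin t,
          ad G (f p.1) (f p.2) * ad G (f q.1) (f q.2) ≤
        ∑ q : Fin t × Fin t, N ^ t * (p₀ ^ 2 +
        ((if p.1 = q.1 then 1 else 0) + (if p.1 = q.2 then 1 else 0) +
         (if p.2 = q.1 then 1 else 0) + (if p.2 = q.2 then 1 else 0))) := by
      intro p
      rw [sum_comm]
      exact sum_le_sum (fun q _ => quad_sum G p q)
    refine (sum_le_sum (fun p _ => h2 p)).trans ?_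
    have h3 : ∀ p : Fin t × Fin t, ∑ q : Fin t × Fin t, N ^ t * (p₀ ^ 2 +
        ((if p.1 = q.1 then (1 : ℝ) else 0) + (if p.1 = q.2 then 1 else 0) +
         (if p.2 = q.1 then 1 else 0) + (if p.2 = q.2 then 1 else 0))) =
        N ^ t * ((t : ℝ) ^ 2 * p₀ ^ 2 + 4 * t) := by
      intro p
      rw [← mul_sum]
      congr 1
      rw [sum_add_distrib, sum_add_distrib, sum_add_distrib, sum_add_distrib]
      have e1 : ∀ i : Fin t, ∑ q : Fin t × Fin t, (if i = q.1 then (1 : ℝ) else 0) = t := by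
        intro i
        rw [← univ_product_univ, sum_product_right]
        simp only [sum_ite_eq, mem_univ, if_true, sum_const, card_univ, Fintype.card_fin,
          nsmul_eq_mul, mul_one]
      have e2 : ∀ i : Fin t, ∑ q : Fin t × Fin t, (if i = q.2 then (1 : ℝ) else 0) = t := by
        intro i
        rw [← univ_product_univ, sum_product]
        simp only [sum_ite_eq, mem_univ, if_true, sum_const, card_univ, Fintype.card_fin,
          nsmul_eq_mul, mul_one]
      rw [e1, e2, e1, e2]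
      simp only [sum_const, card_univ, Fintype.card_prod, Fintype.card_fin, nsmul_eq_mul]
      push_cast
      ring
    simp only [h3]
    rw [sum_const, card_univ, Fintype.card_prod, Fintype.card_fin, nsmul_eq_mul]
    apply le_of_eq
    push_cast
    ring
  have hexp : ∑ f : Fin t → W, ((zc (pull G f) : ℝ) - (t : ℝ) ^ 2 * p₀) ^ 2 =
      ∑ f : Fin t → W, (zc (pull G f) : ℝ) ^ 2 -
        2 * ((t : ℝ) ^ 2 * p₀) * ∑ f : Fin t → W, (zc (pull G f) : ℝ) +
        N ^ t * ((t : ℝ) ^ 2 * p₀) ^ 2 := by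
    have : ∀ f : Fin t → W, ((zc (pull G f) : ℝ) - (t : ℝ) ^ 2 * p₀) ^ 2 =
        (zc (pull G f) : ℝ) ^ 2 - 2 * ((t : ℝ) ^ 2 * p₀) * (zc (pull G f) : ℝ) +
          ((t : ℝ) ^ 2 * p₀) ^ 2 := by
      intro f; ring
    simp only [this]
    rw [sum_add_distrib, sum_sub_distrib, ← mul_sum, sum_const, card_univ, Fintype.card_fun,
      Fintype.card_fin, nsmul_eq_mul]
    push_cast
    rw [← hN]
  rw [hexp, hfirst]
  have hNt : 0 < N ^ t := by positivity
  have ht : (0 : ℝ) ≤ t := by positivity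
  have hpp : p₀ ^ 2 ≤ 1 := by nlinarith
  have : N ^ t * ((t : ℝ) ^ 4 * p₀ ^ 2 + 4 * (t : ℝ) ^ 3) -
      2 * ((t : ℝ) ^ 2 * p₀) * ((t : ℝ) * ((t : ℝ) - 1) * (N ^ t * p₀)) +
        N ^ t * ((t : ℝ) ^ 2 * p₀) ^ 2 = N ^ t * (4 * (t : ℝ) ^ 3 + 2 * (t : ℝ) ^ 3 * p₀ ^ 2) := by
    ring
  have h6 : N ^ t * (4 * (t : ℝ) ^ 3 + 2 * (t : ℝ) ^ 3 * p₀ ^ 2) ≤ 6 * (t : ℝ) ^ 3 * N ^ t := by
    have : 2 * (t : ℝ) ^ 3 * p₀ ^ 2 ≤ 2 * (t : ℝ) ^ 3 * 1 :=
      mul_le_mul_of_nonneg_left hpp (by positivity)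
    nlinarith
  linarith

/-- The sampling lemma. -/
theorem sample [Fintype W] [Nonempty W] (G : SimpleGraph W) (t s r : ℕ) (γ ξ : ℝ) (ht : 1 ≤ t)
    (hγ : 0 < γ)
    (hbad : 6 / (γ ^ 2 * t) +
      (t : ℝ) ^ (r + 1) * (hc G (r + 1) / (Fintype.card W : ℝ) ^ (r + 1)) ≤ ξ)
    (hξ : ξ < 1) :
    ∃ f : Fin t → W, hc (pull G f) (r + 1) = 0 ∧
      (zc (pull G f) : ℝ) ≤ (t : ℝ) ^ 2 * (zc G / (Fintype.card W : ℝ) ^ 2 + γ) ∧
      (t.descFactorial s : ℝ) * (hc G s / (Fintype.card W : ℝ) ^ s) - (t : ℝ) ^ s * ξ ≤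
        hc (pull G f) s := by
  set N : ℝ := (Fintype.card W : ℝ) with hN
  have hNpos : 0 < N := by rw [hN]; exact_mod_cast Fintype.card_pos
  have htpos : (0 : ℝ) < t := by exact_mod_cast ht
  set p₀ : ℝ := zc G / N ^ 2 with hp₀
  by_contra hcon
  push Not at hcon
  set B₁ := univ.filter (fun f : Fin t → W => (t : ℝ) ^ 2 * (p₀ + γ) < (zc (pull G f) : ℝ)) with hB₁
  set B₂ := univ.filter (fun f : Fin t → W => 0 < hc (pull G f) (r + 1)) with hB₂
  set D := (B₁ ∪ B₂)ᶜ with hD
  have hb1 : (#B₁ : ℝ) ≤ 6 / (γ ^ 2 * t) * N ^ t := by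
    have h1 : (#B₁ : ℝ) * ((t : ℝ) ^ 2 * γ) ^ 2 ≤ 6 * (t : ℝ) ^ 3 * N ^ t := by
      refine le_trans ?_ (variance_le G t)
      rw [← nsmul_eq_mul, ← sum_const]
      refine (sum_le_sum ?_).trans (sum_le_sum_of_subset_of_nonneg (subset_univ B₁) ?_)
      · intro f hf
        rw [hB₁, mem_filter] at hf
        apply pow_le_pow_left₀ (by positivity)
        rw [← hp₀]
        linarith [hf.2]
      · intro f _ _
        positivity
    have h2 : 6 / (γ ^ 2 * t) * N ^ t = 6 * (t : ℝ) ^ 3 * N ^ t / ((t : ℝ) ^ 2 * γ) ^ 2 := by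
      field_simp
    rw [h2, le_div_iff₀ (by positivity)]
    exact h1
  have hb2 : (#B₂ : ℝ) ≤ (t : ℝ) ^ (r + 1) * (hc G (r + 1) / N ^ (r + 1)) * N ^ t := by
    have h1 : (#B₂ : ℝ) ≤ ∑ f : Fin t → W, (hc (pull G f) (r + 1) : ℝ) := by
      rw [← mul_one (#B₂ : ℝ), ← nsmul_eq_mul, ← sum_const]
      refine (sum_le_sum ?_).trans (sum_le_sum_of_subset_of_nonneg (subset_univ B₂) ?_)
      · intro f hf
        rw [hB₂, mem_filter] at hf
        exact_mod_cast hf.2
      · intro f _ _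
        positivity
    rw [sum_hc_pull] at h1
    refine h1.trans ?_
    have h2 : (t.descFactorial (r + 1) : ℝ) ≤ (t : ℝ) ^ (r + 1) := by
      exact_mod_cast Nat.descFactorial_le_pow t (r + 1)
    calc (t.descFactorial (r + 1) : ℝ) * (N ^ t / N ^ (r + 1) * hc G (r + 1))
        ≤ (t : ℝ) ^ (r + 1) * (N ^ t / N ^ (r + 1) * hc G (r + 1)) :=
          mul_le_mul_of_nonneg_right h2 (by positivity)
      _ = _ := by ring
  have hNt : 0 < N ^ t := by positivity
  have hbU : (#(B₁ ∪ B₂) : ℝ) ≤ ξ * N ^ t := by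
    have h1 : (#(B₁ ∪ B₂) : ℝ) ≤ #B₁ + #B₂ := by exact_mod_cast card_union_le _ _
    nlinarith
  have hcards : (#(B₁ ∪ B₂) : ℝ) + #D = N ^ t := by
    have h1 : #(B₁ ∪ B₂) + #D = Fintype.card (Fin t → W) := card_add_card_compl _
    rw [Fintype.card_fun, Fintype.card_fin] at h1
    rw [hN]
    exact_mod_cast h1
  have hDpos : (0 : ℝ) < #D := by nlinarith
  have hDne : D.Nonempty := card_pos.mp (by exact_mod_cast hDpos)
  set τ : ℝ := (t.descFactorial s : ℝ) * (hc G s / N ^ s) - (t : ℝ) ^ s * ξ with hτ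
  have hgood : ∀ f ∈ D, (hc (pull G f) s : ℝ) < τ := by
    intro f hf
    rw [hD, mem_compl, mem_union, hB₁, hB₂, mem_filter, mem_filter] at hf
    push Not at hf
    exact hcon f (Nat.le_zero.mp (hf.2 (mem_univ _))) (hf.1 (mem_univ _))
  have hτ0 : 0 ≤ τ := by
    obtain ⟨f, hf⟩ := hDne
    exact le_trans (by positivity) (hgood f hf).le
  have hsumD : ∑ f ∈ D, (hc (pull G f) s : ℝ) < #D * τ := by
    rw [← nsmul_eq_mul, ← sum_const]
    exact sum_lt_sum_of_nonempty hDne hgood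
  have hsumB : ∑ f ∈ B₁ ∪ B₂, (hc (pull G f) s : ℝ) ≤ #(B₁ ∪ B₂) * (t : ℝ) ^ s := by
    rw [← nsmul_eq_mul, ← sum_const]
    apply sum_le_sum
    intro f _
    have : hc (pull G f) s ≤ t ^ s := by
      rw [hc]
      refine (card_le_univ _).trans ?_
      rw [Fintype.card_fun, Fintype.card_fin, Fintype.card_fin]
    exact_mod_cast this
  have htot : ∑ f ∈ B₁ ∪ B₂, (hc (pull G f) s : ℝ) + ∑ f ∈ D, (hc (pull G f) s : ℝ) =
      (t.descFactorial s : ℝ) * (N ^ t / N ^ s * hc G s) := by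
    rw [hD, sum_add_sum_compl, sum_hc_pull]
  have hts : (0 : ℝ) < (t : ℝ) ^ s := by positivity
  have e1 : (t.descFactorial s : ℝ) * (N ^ t / N ^ s * hc G s) = (τ + (t : ℝ) ^ s * ξ) * N ^ t := by
    rw [hτ]; ring
  have e2 : (#D : ℝ) * τ ≤ N ^ t * τ := by
    apply mul_le_mul_of_nonneg_right _ hτ0
    have : (0 : ℝ) ≤ #(B₁ ∪ B₂) := by positivity
    linarith
  have e3 : (#(B₁ ∪ B₂) : ℝ) * (t : ℝ) ^ s ≤ ξ * N ^ t * (t : ℝ) ^ s :=
    mul_le_mul_of_nonneg_right hbU hts.le
  nlinarith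

end Pool.Agent.R85.CS
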