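import Pool.Agent.R85.CliqueSample2

set_option autoImplicit false

namespace Pool.Agent.R85.CS

open Finset SimpleGraph Classical

variable {V W : Type}

theorem hc_equiv [Fintype V] [Fintype W] (G : SimpleGraph V) (e : W ≃ V) (k : ℕ) :
    hc (pull G e) k = hc G k := by
  rw [hc, hc]
  apply card_bij (fun (g : Fin k → W) _ => e ∘ g)
  · intro g hg
    rw [mem_filter] at hg ⊢
    exact ⟨mem_univ _, hg.2⟩
  · intro g _ g' _ h
    funext i
    exact e.injective (congrFun h i)
  · intro g hg
    rw [mem_filter] at hg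
    refine ⟨e.symm ∘ g, ?_, ?_⟩
    · rw [mem_filter, lab_pull]
      refine ⟨mem_univ _, ?_⟩
      have : e ∘ e.symm ∘ g = g := by
        funext i; simp
      rw [this]
      exact hg.2
    · funext i; simp

theorem zc_equiv [Fintype V] [Fintype W] (G : SimpleGraph V) (e : W ≃ V) :
    zc (pull G e) = zc G := by
  rw [zc, zc]
  apply card_bij (fun (p : W × W) _ => (e p.1, e p.2))
  · intro g hg
    rw [mem_filter] at hg ⊢
    exact ⟨mem_univ _, hg.2⟩
  · intro g _ g' _ h
    rw [Prod.mk.injEq] at h
    exact Prod.ext (e.injective h.1) (e.injective h.2)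
  · intro p hp
    rw [mem_filter] at hp
    refine ⟨(e.symm p.1, e.symm p.2), ?_, ?_⟩
    · rw [mem_filter]
      refine ⟨mem_univ _, ?_⟩
      show G.Adj (e (e.symm p.1)) (e (e.symm p.2))
      rw [e.apply_symm_apply, e.apply_symm_apply]
      exact hp.2
    · simp

theorem cliqueFree_of_hc [Fintype V] (G : SimpleGraph V) (k : ℕ) (h : hc G k = 0) :
    G.CliqueFree k := by
  rw [hc_eq, Nat.mul_eq_zero] at h
  rcases h with h | h
  · exact absurd h (Nat.factorial_ne_zero k)
  · rw [Set.ncard_eq_zero (Set.toFinite _)] at h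
    intro S hS
    have : S ∈ {S : Finset V | G.IsNClique k S} := hS
    rw [h] at this
    exact this

/-- Disjoint union of a graph with a matching of `q` edges. -/
def padG (B : SimpleGraph V) (q : ℕ) : SimpleGraph (V ⊕ (Fin q × Bool)) where
  Adj x y := match x, y with
    | Sum.inl a, Sum.inl b => B.Adj a b
    | Sum.inr a, Sum.inr b => a.1 = b.1 ∧ a.2 ≠ b.2
    | _, _ => False
  symm := ⟨by
    rintro (a | a) (b | b) h
    · exact B.symm.symm _ _ h
    · exact h.elim
    · exact h.elim
    · exact ⟨h.1.symm, h.2.symm⟩⟩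
  loopless := ⟨by
    rintro (a | a) h
    · exact B.loopless.irrefl _ h
    · exact h.2 rfl⟩

theorem zc_padG [Fintype V] (B : SimpleGraph V) (q : ℕ) : zc (padG B q) = zc B + 2 * q := by
  have h1 : (univ.filter (fun p : (V ⊕ (Fin q × Bool)) × (V ⊕ (Fin q × Bool)) =>
      (padG B q).Adj p.1 p.2)) =
      ((univ.filter (fun p : V × V => B.Adj p.1 p.2)).map
        ⟨fun p => (Sum.inl p.1, Sum.inl p.2), by
          intro p p' h
          simp only [Prod.mk.injEq, Sum.inl.injEq] at h
          exact Prod.ext h.1 h.2⟩) ∪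
      ((univ : Finset (Fin q × Bool)).map
        ⟨fun p => (Sum.inr p, Sum.inr (p.1, !p.2)), by
          intro p p' h
          simp only [Prod.mk.injEq, Sum.inr.injEq] at h
          exact h.1⟩) := by
    ext ⟨x, y⟩
    simp only [mem_filter, mem_univ, true_and, mem_union, Finset.mem_map,
      Function.Embedding.coeFn_mk, Prod.mk.injEq]
    rcases x with a | a <;> rcases y with b | b
    · constructor
      · intro h
        exact Or.inl ⟨(a, b), h, rfl, rfl⟩
      · rintro (⟨p, h, h1, h2⟩ | ⟨p, h1, h2⟩)
        · rw [Sum.inl.injEq] at h1 h2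
          rw [← h1, ← h2]
          exact h
        · exact absurd h1 (by simp)
    · constructor
      · intro h; exact h.elim
      · rintro (⟨p, h, h1, h2⟩ | ⟨p, h1, h2⟩)
        · exact absurd h2 (by simp)
        · exact absurd h1 (by simp)
    · constructor
      · intro h; exact h.elim
      · rintro (⟨p, h, h1, h2⟩ | ⟨p, h1, h2⟩)
        · exact absurd h1 (by simp)
        · exact absurd h2 (by simp)
    · constructor
      · intro h
        right
        refine ⟨a, rfl, ?_⟩
        have h1 : a.1 = b.1 := h.1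
        have h2 : a.2 ≠ b.2 := h.2
        rw [Sum.inr.injEq, Prod.ext_iff]
        refine ⟨h1, ?_⟩
        show (!a.2) = b.2
        revert h2
        generalize a.2 = x
        generalize b.2 = y
        cases x <;> cases y <;> simp
      · rintro (⟨p, h, h1, h2⟩ | ⟨p, h1, h2⟩)
        · exact absurd h1 (by simp)
        · rw [Sum.inr.injEq] at h1 h2
          subst h1
          rw [← h2]
          exact ⟨rfl, by simp⟩
  rw [zc, h1, card_union_of_disjoint, card_map, card_map, card_univ, Fintype.card_prod,
    Fintype.card_fin, Fintype.card_bool, zc, mul_comm q 2]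
  rw [Finset.disjoint_left]
  rintro ⟨x, y⟩ hx hy
  simp only [Finset.mem_map, Function.Embedding.coeFn_mk, Prod.mk.injEq] at hx hy
  obtain ⟨p, _, h1, _⟩ := hx
  obtain ⟨p', _, h2, _⟩ := hy
  rw [← h1] at h2
  exact absurd h2 (by simp)

theorem hc_padG_le [Fintype V] (B : SimpleGraph V) (q k : ℕ) : hc B k ≤ hc (padG B q) k := by
  rw [hc, hc]
  apply card_le_card_of_injOn (fun g i => Sum.inl (g i))
  · intro g hg
    rw [mem_coe, mem_filter] at hg ⊢
    exact ⟨mem_univ _, hg.2⟩
  · intro g _ g' _ h
    funext i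
    have := congrFun h i
    simpa using this

theorem hc_padG_zero [Fintype V] (B : SimpleGraph V) (q k : ℕ) (hk : 3 ≤ k) (h : hc B k = 0) :
    hc (padG B q) k = 0 := by
  rw [hc, card_eq_zero, filter_eq_empty_iff] at h ⊢
  intro g _ hlab
  have hinl : ∀ i, ∃ a, g i = Sum.inl a := by
    intro i
    rcases hgi : g i with a | a
    · exact ⟨a, rfl⟩
    · exfalso
      -- two further indices
      obtain ⟨j, l, hji, hli, hjl⟩ : ∃ j l : Fin k, j ≠ i ∧ l ≠ i ∧ j ≠ l := by
        have h2 : 1 < #(univ.erase i) := by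
          rw [card_erase_of_mem (mem_univ _), card_univ, Fintype.card_fin]
          omega
        obtain ⟨j, hj, l, hl, hjl⟩ := one_lt_card.mp h2
        exact ⟨j, l, ne_of_mem_erase hj, ne_of_mem_erase hl, hjl⟩
      have h1 := hlab i j hji.symm
      have h2 := hlab i l hli.symm
      have h3 := hlab j l hjl
      rw [hgi] at h1 h2
      rcases hgj : g j with b | b
      · rw [hgj] at h1; exact h1.elim
      · rcases hgl : g l with c | c
        · rw [hgl] at h2; exact h2.elim
        · rw [hgj] at h1 h3
          rw [hgl] at h2 h3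
          have e1 : a.2 ≠ b.2 := h1.2
          have e2 : a.2 ≠ c.2 := h2.2
          have e3 : b.2 ≠ c.2 := h3.2
          revert e1 e2 e3
          generalize a.2 = x
          generalize b.2 = y
          generalize c.2 = z
          cases x <;> cases y <;> cases z <;> simp
  choose g' hg' using hinl
  apply h (mem_univ g')
  intro i j hij
  have := hlab i j hij
  rw [hg' i, hg' j] at this
  exact this

/-- Padding to exactly `m` edges. -/
theorem exists_padded [Fintype V] (B : SimpleGraph V) (m r s : ℕ) (hr : 2 ≤ r)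
    (hz : zc B ≤ 2 * m) (hB : hc B (r + 1) = 0) :
    ∃ (n' : ℕ) (G' : SimpleGraph (Fin n')), G'.edgeSet.ncard = m ∧ G'.CliqueFree (r + 1) ∧
      hc B s ≤ hc G' s := by
  have hzB := zc_eq B
  set q := m - B.edgeSet.ncard with hq
  set G₂ := padG B q with hG₂
  let e := (Fintype.equivFin (V ⊕ (Fin q × Bool))).symm
  refine ⟨_, pull G₂ e, ?_, ?_, ?_⟩
  · have h1 : 2 * (pull G₂ e).edgeSet.ncard = zc B + 2 * q := by
      rw [← zc_eq, zc_equiv, hG₂, zc_padG]
    omega
  · apply cliqueFree_of_hc
    rw [hc_equiv]
    exact hc_padG_zero B q (r + 1) (by omega) hB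
  · rw [hc_equiv]
    exact hc_padG_le B q s

/-- Labelled cliques with a vertex outside `H` are few. -/
theorem low_cliques {n : ℕ} (G : SimpleGraph (Fin n)) (H : Finset (Fin n)) (s : ℕ) (hs : 3 ≤ s)
    (x : ℝ) (hx : 0 ≤ x) (hlow : ∀ v, v ∉ H → (G.degree v : ℝ) ≤ x) :
    (hc G s : ℝ) ≤ hc (pull G (Subtype.val : H → Fin n)) s + s * (zc G * x ^ (s - 2)) := by
  set A := univ.filter (fun g : Fin s → Fin n => Lab G g) with hA
  set A₁ := A.filter (fun g => ∀ i, g i ∈ H) with hA₁
  set A₂ := A.filter (fun g => ¬ ∀ i, g i ∈ H) with hA₂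
  have hsum : #A₁ + #A₂ = #A := card_filter_add_card_filter_not _
  have h1 : #A₁ ≤ hc (pull G (Subtype.val : H → Fin n)) s := by
    rw [hc]
    have : A₁ ⊆ (univ.filter (fun g : Fin s → H => Lab (pull G (Subtype.val : H → Fin n)) g)).image
        (fun g i => (g i).1) := by
      intro g hg
      rw [hA₁, mem_filter, hA, mem_filter] at hg
      rw [mem_image]
      refine ⟨fun i => ⟨g i, hg.2 i⟩, ?_, rfl⟩
      rw [mem_filter]
      exact ⟨mem_univ _, hg.1.2⟩
    exact (card_le_card this).trans card_image_le
  have h2 : (#A₂ : ℝ) ≤ s * (zc G * x ^ (s - 2)) := by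
    have hcov : A₂ ⊆ (univ : Finset (Fin s)).biUnion (fun i =>
        (univ \ H).biUnion (fun v => A.filter (fun g => g i = v))) := by
      intro g hg
      rw [hA₂, mem_filter] at hg
      obtain ⟨hgA, hg2⟩ := hg
      push Not at hg2
      obtain ⟨i, hi⟩ := hg2
      rw [mem_biUnion]
      refine ⟨i, mem_univ _, ?_⟩
      rw [mem_biUnion]
      exact ⟨g i, by simp [hi], by rw [mem_filter]; exact ⟨hgA, rfl⟩⟩
    have hone : ∀ (i : Fin s) (v : Fin n), #(A.filter (fun g => g i = v)) ≤ (G.degree v) ^ (s - 1) := by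
      intro i v
      have hc1 : #(Fintype.piFinset (fun _ : {j : Fin s // j ≠ i} => G.neighborFinset v)) =
          (G.degree v) ^ (s - 1) := by
        rw [Fintype.card_piFinset, prod_const, card_neighborFinset_eq_degree, card_univ]
        congr 1
        simp
      rw [← hc1]
      apply card_le_card_of_injOn (fun g j => g j.1)
      · intro g hg
        rw [mem_coe, mem_filter, hA, mem_filter] at hg
        rw [mem_coe, Fintype.mem_piFinset]
        intro j
        rw [mem_neighborFinset]
        have := hg.1.2 i j.1 j.2.symm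
        rw [hg.2] at this
        exact this
      · intro g hg g' hg' h
        rw [mem_coe, mem_filter] at hg hg'
        funext j
        by_cases hj : j = i
        · rw [hj, hg.2, hg'.2]
        · exact congrFun h ⟨j, hj⟩
    have hdeg : ∀ v, v ∉ H → ((G.degree v : ℝ)) ^ (s - 1) ≤ G.degree v * x ^ (s - 2) := by
      intro v hv
      have : s - 1 = (s - 2) + 1 := by omega
      rw [this, pow_succ, mul_comm]
      exact mul_le_mul_of_nonneg_left (pow_le_pow_left₀ (by positivity) (hlow v hv) _) (by positivity)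
    calc (#A₂ : ℝ) ≤ ∑ i : Fin s, ∑ v ∈ univ \ H, (#(A.filter (fun g => g i = v)) : ℝ) := by
          have h3 := (card_le_card hcov).trans card_biUnion_le
          have h4 : ∑ i : Fin s, #((univ \ H).biUnion (fun v => A.filter (fun g => g i = v))) ≤
              ∑ i : Fin s, ∑ v ∈ univ \ H, #(A.filter (fun g => g i = v)) :=
            sum_le_sum (fun i _ => card_biUnion_le)
          exact_mod_cast h3.trans h4
      _ ≤ ∑ _i : Fin s, ∑ v ∈ univ \ H, (G.degree v : ℝ) * x ^ (s - 2) := by
          apply sum_le_sum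
          intro i _
          apply sum_le_sum
          intro v hv
          rw [mem_sdiff] at hv
          refine le_trans ?_ (hdeg v hv.2)
          exact_mod_cast hone i v
      _ ≤ ∑ _i : Fin s, ∑ v : Fin n, (G.degree v : ℝ) * x ^ (s - 2) := by
          apply sum_le_sum
          intro i _
          apply sum_le_sum_of_subset_of_nonneg (subset_univ _)
          intro v _ _
          positivity
      _ = s * (zc G * x ^ (s - 2)) := by
          rw [sum_const, card_univ, Fintype.card_fin, nsmul_eq_mul, ← sum_mul]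
          congr 2
          have h5 : (∑ v : Fin n, (G.degree v : ℝ)) = ((∑ v : Fin n, G.degree v : ℕ) : ℝ) := by
            push_cast; rfl
          rw [h5, G.sum_degrees_eq_twice_card_edges, zc_eq, ← coe_edgeFinset, Set.ncard_coe_finset]
  have h3 : (hc G s : ℝ) = #A₁ + #A₂ := by
    rw [hc]; exact_mod_cast hsum.symm
  rw [h3]
  have h4 : (#A₁ : ℝ) ≤ hc (pull G (Subtype.val : H → Fin n)) s := by exact_mod_cast h1
  linarith

end Pool.Agent.R85.CS
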