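import Pool.Agent.R85.HitSets

set_option autoImplicit false

namespace Pool.Agent.R85.Cube2

open Finset Classical

/-- Coordinates with the value `none`. -/
noncomputable def stars {n : ℕ} (D : Fin n → Option Bool) : Finset (Fin n) :=
  univ.filter (fun i => D i = none)

/-- Coordinates with the value `some true`. -/
noncomputable def ones {n : ℕ} (D : Fin n → Option Bool) : Finset (Fin n) :=
  univ.filter (fun i => D i = some true)

theorem ext_of {n : ℕ} {D E : Fin n → Option Bool} (h1 : stars D = stars E)
    (h2 : ones D = ones E) : D = E := by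
  funext i
  have a1 : D i = none ↔ E i = none := by
    have := Finset.ext_iff.mp h1 i
    simpa [stars] using this
  have a2 : D i = some true ↔ E i = some true := by
    have := Finset.ext_iff.mp h2 i
    simpa [ones] using this
  rcases hD : D i with _ | b
  · exact (a1.mp hD).symm
  · rcases hE : E i with _ | b'
    · rw [a1.mpr hE] at hD
      exact absurd hD (by simp)
    · cases b <;> cases b' <;> simp_all

variable {n : ℕ} (V : Finset (Fin n) → Finset (Finset (Fin n)))

/-- The sparse set of 2-subcubes meeting every large subcube. -/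
def Sel (D : Fin n → Option Bool) : Prop :=
  ∃ i j : Fin n, i < j ∧ stars D = {i, j} ∧
    ones D ∩ Finset.Iio i ∈ V (Finset.Iio i) ∧
    ones D ∩ Finset.Ioo i j ∈ V (Finset.Ioo i j) ∧
    ones D ∩ Finset.Ioi j ∈ V (Finset.Ioi j)

theorem pair_eq {i j i' j' : Fin n} (h : i < j) (h' : i' < j') (he : ({i, j} : Finset (Fin n)) = {i', j'}) :
    i = i' ∧ j = j' := by
  have h1 : i ∈ ({i', j'} : Finset (Fin n)) := by rw [← he]; simp
  have h2 : j ∈ ({i', j'} : Finset (Fin n)) := by rw [← he]; simp
  simp only [mem_insert, mem_singleton] at h1 h2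
  rcases h1 with h1 | h1 <;> rcases h2 with h2 | h2
  · rw [h1, h2] at h; exact absurd h (lt_irrefl _)
  · exact ⟨h1, h2⟩
  · rw [h1, h2] at h; exact absurd (h.trans h') (lt_irrefl _)
  · rw [h1, h2] at h; exact absurd h (lt_irrefl _)

theorem block_card {i j : Fin n} (h : i < j) :
    #(Finset.Iio i) + #(Finset.Ioo i j) + #(Finset.Ioi j) = n - 2 := by
  rw [Fin.card_Iio, Fin.card_Ioo, Fin.card_Ioi]
  have := i.2
  have := j.2
  have : i.1 < j.1 := h
  omega

/-- For fixed stars, the number of selected subcubes is small. -/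
theorem fiber_le (hV : ∀ B, 64 * #(V B) ≤ 3 * 2 ^ #B) {i j : Fin n} (h : i < j) :
    64 ^ 3 * #(univ.filter (fun D : Fin n → Option Bool => Sel V D ∧ stars D = {i, j})) ≤
      27 * 2 ^ (n - 2) := by
  have hinj : #(univ.filter (fun D : Fin n → Option Bool => Sel V D ∧ stars D = {i, j})) ≤
      #(V (Finset.Iio i) ×ˢ V (Finset.Ioo i j) ×ˢ V (Finset.Ioi j)) := by
    apply card_le_card_of_injOn
      (fun D => (ones D ∩ Finset.Iio i, ones D ∩ Finset.Ioo i j, ones D ∩ Finset.Ioi j))
    · intro D hD
      rw [mem_coe, mem_filter] at hD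
      obtain ⟨_, ⟨i', j', hij', hst, h1, h2, h3⟩, hst'⟩ := hD
      obtain ⟨rfl, rfl⟩ := pair_eq h hij' (hst'.symm.trans hst)
      rw [mem_coe, mem_product, mem_product]
      exact ⟨h1, h2, h3⟩
    · intro D hD E hE hDE
      rw [mem_coe, mem_filter] at hD hE
      simp only [Prod.mk.injEq] at hDE
      obtain ⟨e1, e2, e3⟩ := hDE
      apply ext_of (hD.2.2.trans hE.2.2.symm)
      have hnot : ∀ D : Fin n → Option Bool, stars D = {i, j} → ∀ k ∈ ones D, k ≠ i ∧ k ≠ j := by
        intro D hst k hk
        rw [ones, mem_filter] at hk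
        constructor
        · rintro rfl
          have : k ∈ stars D := by rw [hst]; simp
          rw [stars, mem_filter] at this
          rw [this.2] at hk
          simp at hk
        · rintro rfl
          have : k ∈ stars D := by rw [hst]; simp
          rw [stars, mem_filter] at this
          rw [this.2] at hk
          simp at hk
      ext k
      have f1 := Finset.ext_iff.mp e1 k
      have f2 := Finset.ext_iff.mp e2 k
      have f3 := Finset.ext_iff.mp e3 k
      simp only [mem_inter, Finset.mem_Iio, Finset.mem_Ioo, Finset.mem_Ioi] at f1 f2 f3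
      have g1 := hnot D hD.2.2 k
      have g2 := hnot E hE.2.2 k
      rcases lt_trichotomy k i with hk | hk | hk
      · exact ⟨fun h => (f1.mp ⟨h, hk⟩).1, fun h => (f1.mpr ⟨h, hk⟩).1⟩
      · exact ⟨fun h => absurd hk (g1 h).1, fun h => absurd hk (g2 h).1⟩
      · rcases lt_trichotomy k j with hk' | hk' | hk'
        · exact ⟨fun h => (f2.mp ⟨h, hk, hk'⟩).1, fun h => (f2.mpr ⟨h, hk, hk'⟩).1⟩
        · exact ⟨fun h => absurd hk' (g1 h).2, fun h => absurd hk' (g2 h).2⟩
        · exact ⟨fun h => (f3.mp ⟨h, hk'⟩).1, fun h => (f3.mpr ⟨h, hk'⟩).1⟩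
  rw [card_product, card_product] at hinj
  have b1 := hV (Finset.Iio i)
  have b2 := hV (Finset.Ioo i j)
  have b3 := hV (Finset.Ioi j)
  rw [← block_card h, pow_add, pow_add]
  calc 64 ^ 3 * #(univ.filter (fun D : Fin n → Option Bool => Sel V D ∧ stars D = {i, j}))
      ≤ 64 ^ 3 * (#(V (Finset.Iio i)) * (#(V (Finset.Ioo i j)) * #(V (Finset.Ioi j)))) :=
        Nat.mul_le_mul_left _ hinj
    _ = (64 * #(V (Finset.Iio i))) * ((64 * #(V (Finset.Ioo i j))) * (64 * #(V (Finset.Ioi j)))) := by
        ring
    _ ≤ (3 * 2 ^ #(Finset.Iio i)) * ((3 * 2 ^ #(Finset.Ioo i j)) * (3 * 2 ^ #(Finset.Ioi j))) :=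
        Nat.mul_le_mul b1 (Nat.mul_le_mul b2 b3)
    _ = _ := by ring

/-- The number of subcubes with given stars. -/
theorem fiber_total {i j : Fin n} (h : i < j) :
    2 ^ (n - 2) ≤ #(univ.filter (fun D : Fin n → Option Bool => stars D = {i, j})) := by
  have h1 : #((({i, j} : Finset (Fin n))ᶜ).powerset) = 2 ^ (n - 2) := by
    rw [card_powerset, card_compl, Fintype.card_fin, card_pair h.ne]
  rw [← h1]
  apply card_le_card_of_injOn
    (fun X => fun k => if k = i ∨ k = j then none else some (decide (k ∈ X)))
  · intro X _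
    rw [mem_coe, mem_filter]
    refine ⟨mem_univ _, ?_⟩
    ext k
    simp only [stars, mem_filter, mem_univ, true_and, mem_insert, mem_singleton]
    split_ifs with hk
    · simpa using hk
    · simpa using hk
  · intro X hX Y hY hXY
    rw [mem_coe, mem_powerset] at hX hY
    ext k
    have hk := congrFun hXY k
    simp only at hk
    split_ifs at hk with h2
    · have a1 : k ∉ X := by
        intro hkX
        have := hX hkX
        simp only [mem_compl, mem_insert, mem_singleton] at this
        exact this h2
      have a2 : k ∉ Y := by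
        intro hkY
        have := hY hkY
        simp only [mem_compl, mem_insert, mem_singleton] at this
        exact this h2
      simp [a1, a2]
    · simpa using hk

theorem global_le (hV : ∀ B, 64 * #(V B) ≤ 3 * 2 ^ #B) :
    64 ^ 3 * #(univ.filter (fun D : Fin n → Option Bool => Sel V D ∧ #(stars D) = 2)) ≤
      27 * #(univ.filter (fun D : Fin n → Option Bool => #(stars D) = 2)) := by
  have e1 : #(univ.filter (fun D : Fin n → Option Bool => Sel V D ∧ #(stars D) = 2)) =
      ∑ P ∈ powersetCard 2 (univ : Finset (Fin n)),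
        #(univ.filter (fun D : Fin n → Option Bool => Sel V D ∧ stars D = P)) := by
    rw [card_eq_sum_card_fiberwise (f := stars) (t := powersetCard 2 (univ : Finset (Fin n)))]
    · apply sum_congr rfl
      intro P hP
      congr 1
      ext D
      simp only [mem_filter, mem_univ, true_and]
      rw [mem_powersetCard] at hP
      constructor
      · rintro ⟨⟨a, _⟩, c⟩; exact ⟨a, c⟩
      · rintro ⟨a, c⟩; exact ⟨⟨a, by rw [c, hP.2]⟩, c⟩
    · intro D hD
      rw [mem_coe, mem_filter] at hD
      rw [mem_coe, mem_powersetCard]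
      exact ⟨subset_univ _, hD.2.2⟩
  have e2 : #(univ.filter (fun D : Fin n → Option Bool => #(stars D) = 2)) =
      ∑ P ∈ powersetCard 2 (univ : Finset (Fin n)),
        #(univ.filter (fun D : Fin n → Option Bool => stars D = P)) := by
    rw [card_eq_sum_card_fiberwise (f := stars) (t := powersetCard 2 (univ : Finset (Fin n)))]
    · apply sum_congr rfl
      intro P hP
      congr 1
      ext D
      simp only [mem_filter, mem_univ, true_and]
      rw [mem_powersetCard] at hP
      constructor
      · rintro ⟨_, c⟩; exact c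
      · rintro c; exact ⟨by rw [c, hP.2], c⟩
    · intro D hD
      rw [mem_coe, mem_filter] at hD
      rw [mem_coe, mem_powersetCard]
      exact ⟨subset_univ _, hD.2⟩
  rw [e1, e2, mul_sum, mul_sum]
  apply sum_le_sum
  intro P hP
  rw [mem_powersetCard, card_eq_two] at hP
  obtain ⟨_, x, y, hxy, rfl⟩ := hP
  rcases lt_or_gt_of_ne hxy with h | h
  · exact (fiber_le V hV h).trans (Nat.mul_le_mul_left _ (fiber_total h))
  · rw [pair_comm]
    exact (fiber_le V hV h).trans (Nat.mul_le_mul_left _ (fiber_total h))

/-- Every 59-subcube contains a selected 2-subcube. -/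
theorem sel_hits (hH : ∀ B S D : Finset (Fin n), S ⊆ B → D ⊆ B → Disjoint S D → 19 ≤ #D →
      ∃ A ⊆ D, S ∪ A ∈ V B)
    (C : Fin n → Option Bool) (hC : #(stars C) = 59) :
    ∃ D : Fin n → Option Bool, Sel V D ∧ #(stars D) = 2 ∧
      ∀ (i : Fin n) (b : Bool), C i = some b → D i = some b := by
  let e : Fin 59 ↪o Fin n := (stars C).orderEmbOfFin hC
  have heC : ∀ t, e t ∈ stars C := fun t => Finset.orderEmbOfFin_mem _ hC t
  set i : Fin n := e 19 with hi
  set j : Fin n := e 39 with hj
  have hij : i < j := e.strictMono (by decide)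
  have hCi : C i = none := by
    have := heC 19
    rw [stars, mem_filter] at this
    exact this.2
  have hCj : C j = none := by
    have := heC 39
    rw [stars, mem_filter] at this
    exact this.2
  have hdisj : ∀ B : Finset (Fin n), Disjoint (ones C ∩ B) (stars C ∩ B) := by
    intro B
    rw [disjoint_left]
    intro k hk hk'
    rw [mem_inter, ones, mem_filter] at hk
    rw [mem_inter, stars, mem_filter] at hk'
    rw [hk'.1.2] at hk
    simp at hk
  have hcount : ∀ (B : Finset (Fin n)) (T : Finset (Fin 59)), (∀ t ∈ T, e t ∈ B) →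
      #T ≤ #(stars C ∩ B) := by
    intro B T hT
    rw [← card_map e.toEmbedding]
    apply card_le_card
    intro k hk
    rw [Finset.mem_map] at hk
    obtain ⟨t, ht, rfl⟩ := hk
    rw [mem_inter]
    exact ⟨heC t, hT t ht⟩
  obtain ⟨A₀, hA₀, hV₀⟩ := hH (Finset.Iio i) (ones C ∩ Finset.Iio i) (stars C ∩ Finset.Iio i)
    inter_subset_right inter_subset_right (hdisj _)
    (by
      have := hcount (Finset.Iio i) (Finset.Iio 19) (by
        intro t ht
        rw [Finset.mem_Iio] at ht ⊢
        exact e.strictMono ht)
      have h2 : #(Finset.Iio (19 : Fin 59)) = 19 := by decide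
      omega)
  obtain ⟨A₁, hA₁, hV₁⟩ := hH (Finset.Ioo i j) (ones C ∩ Finset.Ioo i j) (stars C ∩ Finset.Ioo i j)
    inter_subset_right inter_subset_right (hdisj _)
    (by
      have := hcount (Finset.Ioo i j) (Finset.Ioo 19 39) (by
        intro t ht
        rw [Finset.mem_Ioo] at ht ⊢
        exact ⟨e.strictMono ht.1, e.strictMono ht.2⟩)
      have h2 : #(Finset.Ioo (19 : Fin 59) 39) = 19 := by decide
      omega)
  obtain ⟨A₂, hA₂, hV₂⟩ := hH (Finset.Ioi j) (ones C ∩ Finset.Ioi j) (stars C ∩ Finset.Ioi j)
    inter_subset_right inter_subset_right (hdisj _)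
    (by
      have := hcount (Finset.Ioi j) (Finset.Ioi 39) (by
        intro t ht
        rw [Finset.mem_Ioi] at ht ⊢
        exact e.strictMono ht)
      have h2 : #(Finset.Ioi (39 : Fin 59)) = 19 := by decide
      omega)
  set X : Finset (Fin n) := ones C ∪ (A₀ ∪ (A₁ ∪ A₂)) with hX
  let D : Fin n → Option Bool := fun k => if k = i ∨ k = j then none else some (decide (k ∈ X))
  have hstars : stars D = {i, j} := by
    ext k
    simp only [stars, D, mem_filter, mem_univ, true_and, mem_insert, mem_singleton]
    split_ifs with hk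
    · simpa using hk
    · simpa using hk
  have hCones : ∀ k, k ∈ ones C → k ≠ i ∧ k ≠ j := by
    intro k hk
    rw [ones, mem_filter] at hk
    constructor
    · rintro rfl
      rw [hCi] at hk; simp at hk
    · rintro rfl
      rw [hCj] at hk; simp at hk
  have hA₀' : ∀ k ∈ A₀, k < i ∧ C k = none := by
    intro k hk
    have := hA₀ hk
    rw [mem_inter, Finset.mem_Iio, stars, mem_filter] at this
    exact ⟨this.2, this.1.2⟩
  have hA₁' : ∀ k ∈ A₁, (i < k ∧ k < j) ∧ C k = none := by
    intro k hk
    have := hA₁ hk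
    rw [mem_inter, Finset.mem_Ioo, stars, mem_filter] at this
    exact ⟨this.2, this.1.2⟩
  have hA₂' : ∀ k ∈ A₂, j < k ∧ C k = none := by
    intro k hk
    have := hA₂ hk
    rw [mem_inter, Finset.mem_Ioi, stars, mem_filter] at this
    exact ⟨this.2, this.1.2⟩
  have hones : ∀ k, k ∈ ones D ↔ k ∈ X := by
    intro k
    simp only [ones, D, mem_filter, mem_univ, true_and]
    split_ifs with hk
    · simp only [reduceCtorEq, false_iff]
      rw [hX]
      simp only [mem_union]
      rintro (h | h | h | h)
      · have := hCones k h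
        rcases hk with hk | hk
        · exact this.1 hk
        · exact this.2 hk
      · have := (hA₀' k h).1
        rcases hk with rfl | rfl
        · exact lt_irrefl _ this
        · exact lt_irrefl _ (this.trans hij)
      · have := (hA₁' k h).1
        rcases hk with rfl | rfl
        · exact lt_irrefl _ this.1
        · exact lt_irrefl _ this.2
      · have := (hA₂' k h).1
        rcases hk with rfl | rfl
        · exact lt_irrefl _ (this.trans hij)
        · exact lt_irrefl _ this
    · simp
  refine ⟨D, ⟨i, j, hij, hstars, ?_, ?_, ?_⟩, ?_, ?_⟩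
  · have : ones D ∩ Finset.Iio i = ones C ∩ Finset.Iio i ∪ A₀ := by
      ext k
      simp only [mem_inter, mem_union, hones, hX, Finset.mem_Iio]
      constructor
      · rintro ⟨h | h | h | h, hk⟩
        · exact Or.inl ⟨h, hk⟩
        · exact Or.inr h
        · exact absurd (hk.trans (hA₁' k h).1.1) (lt_irrefl _)
        · exact absurd (hk.trans (hij.trans (hA₂' k h).1)) (lt_irrefl _)
      · rintro (h | h)
        · exact ⟨Or.inl h.1, h.2⟩
        · exact ⟨Or.inr (Or.inl h), (hA₀' k h).1⟩
    rw [this]
    exact hV₀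
  · have : ones D ∩ Finset.Ioo i j = ones C ∩ Finset.Ioo i j ∪ A₁ := by
      ext k
      simp only [mem_inter, mem_union, hones, hX, Finset.mem_Ioo]
      constructor
      · rintro ⟨h | h | h | h, hk⟩
        · exact Or.inl ⟨h, hk⟩
        · exact absurd (hk.1.trans (hA₀' k h).1) (lt_irrefl _)
        · exact Or.inr h
        · exact absurd (hk.2.trans (hA₂' k h).1) (lt_irrefl _)
      · rintro (h | h)
        · exact ⟨Or.inl h.1, h.2⟩
        · exact ⟨Or.inr (Or.inr (Or.inl h)), (hA₁' k h).1⟩
    rw [this]
    exact hV₁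
  · have : ones D ∩ Finset.Ioi j = ones C ∩ Finset.Ioi j ∪ A₂ := by
      ext k
      simp only [mem_inter, mem_union, hones, hX, Finset.mem_Ioi]
      constructor
      · rintro ⟨h | h | h | h, hk⟩
        · exact Or.inl ⟨h, hk⟩
        · exact absurd (hk.trans ((hA₀' k h).1.trans hij)) (lt_irrefl _)
        · exact absurd (hk.trans (hA₁' k h).1.2) (lt_irrefl _)
        · exact Or.inr h
      · rintro (h | h)
        · exact ⟨Or.inl h.1, h.2⟩
        · exact ⟨Or.inr (Or.inr (Or.inr h)), (hA₂' k h).1⟩
    rw [this]
    exact hV₂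
  · rw [hstars, card_pair hij.ne]
  · intro k b hk
    have hki : k ≠ i := by
      rintro rfl
      rw [hCi] at hk; simp at hk
    have hkj : k ≠ j := by
      rintro rfl
      rw [hCj] at hk; simp at hk
    have hD : D k = some (decide (k ∈ X)) := by
      simp only [D]
      rw [if_neg (not_or.mpr ⟨hki, hkj⟩)]
    rw [hD]
    congr 1
    cases b with
    | true =>
      simp only [decide_eq_true_eq]
      rw [hX, mem_union]
      left
      rw [ones, mem_filter]
      exact ⟨mem_univ _, hk⟩
    | false =>
      simp only [decide_eq_false_iff_not]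
      rw [hX]
      simp only [mem_union]
      rintro (h | h | h | h)
      · rw [ones, mem_filter] at h
        rw [hk] at h; simp at h
      · have := (hA₀' k h).2; rw [hk] at this; simp at this
      · have := (hA₁' k h).2; rw [hk] at this; simp at this
      · have := (hA₂' k h).2; rw [hk] at this; simp at this


end Pool.Agent.R85.Cube2
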