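import Pool.Agent.Y428.Ab.Top
import Pool.Agent.TH669.AD.VT
import Pool.Agent.H694R4.Cay

set_option autoImplicit false

/-!
Even cycles (MP_046af7_co): a cyclic group of automorphisms acting freely, in a form with the order of
the group.
-/

namespace Pool.Agent.R85.EvenOrb

open SimpleGraph

/-- The pairs `(k, ℓ)`: `ℓ = 1` and `k ≥ 3`, or `k = 3 ℓ + 2 j` with `ℓ ≥ 2`, `j ≤ 2`. -/
def Pair (k ℓ : ℕ) : Prop := (ℓ = 1 ∧ 3 ≤ k) ∨ (2 ≤ ℓ ∧ ∃ j : ℕ, j ≤ 2 ∧ k = 3 * ℓ + 2 * j)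

theorem card_free {Γ V : Type} [Group Γ] [MulAction Γ V]
    (hfree : ∀ (g : Γ) (a : V), g • a = a → g = 1) :
    Nat.card V = Nat.card (MulAction.orbitRel.Quotient Γ V) * Nat.card Γ := by
  have h : ∀ b : V, MulAction.stabilizer Γ b = ⊥ := by
    intro b
    rw [eq_bot_iff]
    intro g hg
    exact Subgroup.mem_bot.2 (hfree g b hg)
  rw [← Nat.card_prod]
  exact Nat.card_congr (MulAction.selfEquivOrbitsQuotientProd h)

theorem free_bound (k ℓ : ℕ) (hk : Pair k ℓ) : ∃ C : ℕ,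
    ∀ (Γ V : Type) [CommGroup Γ] [Finite Γ] [Finite V] [MulAction Γ V] (X : SimpleGraph V)
    (_ : ∀ (g : Γ) (a c : V), X.Adj a c → X.Adj (g • a) (g • c))
    (_ : ∀ (g : Γ) (a : V), g • a = a → g = 1) (_ : (cycleGraph (2 * k)).Free X),
    Nat.card Γ * X.edgeSet.ncard ^ ℓ ≤ C * Nat.card V ^ (ℓ + 1) := by
  have key : ∃ C : ℕ,
    ∀ (Γ V : Type) [CommGroup Γ] [Finite Γ] [Finite V] [MulAction Γ V] (X : SimpleGraph V)
    (_ : ∀ (g : Γ) (a c : V), X.Adj a c → X.Adj (g • a) (g • c))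
    (_ : ∀ (g : Γ) (a : V), g • a = a → g = 1) (_ : (cycleGraph (2 * k)).Free X),
    X.edgeSet.ncard ^ ℓ ≤
      C * (Nat.card V ^ ℓ * Nat.card (MulAction.orbitRel.Quotient Γ V)) := by
    rcases hk with ⟨rfl, hk⟩ | ⟨hℓ, j, hj, rfl⟩
    · refine ⟨2 * (k + 1) ^ 2, fun Γ V _ _ _ _ X haut hfree hX => ?_⟩
      have hcl : Group.nilpotencyClass Γ ≤ 1 := CommGroup.nilpotencyClass_le_one
      have := Pool.Agent.H694R4.edges_le (G := Γ) X haut 1 k hcl le_rfl (by omega) hX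
      rw [pow_one, pow_one]
      calc X.edgeSet.ncard ≤ _ := this
        _ = _ := by ring
    · obtain ⟨C, hC⟩ := Pool.Agent.Y428.Ab.top_ab ℓ j hℓ hj
      exact ⟨C, fun Γ V _ _ _ _ X haut hfree hX => hC Γ V X haut hfree hX⟩
  obtain ⟨C, hC⟩ := key
  refine ⟨C, fun Γ V _ _ _ _ X haut hfree hX => ?_⟩
  have h1 := hC Γ V X haut hfree hX
  have h2 := card_free hfree
  calc Nat.card Γ * X.edgeSet.ncard ^ ℓ
      ≤ Nat.card Γ * (C * (Nat.card V ^ ℓ * Nat.card (MulAction.orbitRel.Quotient Γ V))) :=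
        Nat.mul_le_mul_left _ h1
    _ = C * (Nat.card V ^ ℓ * (Nat.card (MulAction.orbitRel.Quotient Γ V) * Nat.card Γ)) := by
        ring
    _ = C * Nat.card V ^ (ℓ + 1) := by rw [← h2, pow_succ]

/-- the constant of the theorems -/
noncomputable def cst (k ℓ : ℕ) : ℕ := by
  classical
  exact if hk : Pair k ℓ then (free_bound k ℓ hk).choose else 0

/-- the bound for an element `c` whose powers act freely -/
theorem zpowers_bound (k ℓ : ℕ) (hk : Pair k ℓ) (V A : Type) [Finite V]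
    [Group A] [Finite A] [MulAction A V] (c : A) (X : SimpleGraph V)
    (hfree : ∀ a ∈ Subgroup.zpowers c, ∀ v : V, a • v = v → a = 1)
    (haut : ∀ (a : A) (u v : V), X.Adj u v → X.Adj (a • u) (a • v))
    (hX : (cycleGraph (2 * k)).Free X) :
    Nat.card (Subgroup.zpowers c) * X.edgeSet.ncard ^ ℓ ≤ cst k ℓ * Nat.card V ^ (ℓ + 1) := by
  have h := (free_bound k ℓ hk).choose_spec
  have hcst : cst k ℓ = (free_bound k ℓ hk).choose := by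
    rw [cst, dif_pos hk]
  rw [← hcst] at h
  let inst : CommGroup (Subgroup.zpowers c) := { (inferInstance : Group (Subgroup.zpowers c)) with
    mul_comm := fun a b => by
      obtain ⟨i, hi⟩ := Subgroup.mem_zpowers_iff.1 a.2
      obtain ⟨j, hj⟩ := Subgroup.mem_zpowers_iff.1 b.2
      apply Subtype.ext
      show (a : A) * b = b * a
      rw [← hi, ← hj, ← zpow_add, ← zpow_add, add_comm] }
  exact h (Subgroup.zpowers c) V X (fun g a b hab => haut g.1 a b hab)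
    (fun g a hga => Subtype.ext (hfree g.1 g.2 a hga)) hX

/-- the real form -/
theorem real_form (k ℓ m e n : ℕ) (C U : ℝ) (hk : Pair k ℓ) (hn : 0 < n)
    (h : (m : ℝ) * (e : ℝ) ^ ℓ ≤ U * C * (n : ℝ) ^ (ℓ + 1)) (c : ℝ) (hc : 0 < c)
    (he : c * (n : ℝ) ^ (1 + 1 / (k : ℝ)) ≤ e) :
    (m : ℝ) ≤ U * C / c ^ ℓ * (n : ℝ) ^ (1 - (ℓ : ℝ) / (k : ℝ)) := by
  have hk1 : 1 ≤ k := by
    rcases hk with ⟨_, h⟩ | ⟨h, j, _, h'⟩ <;> omega
  have hk0 : (0 : ℝ) < k := by exact_mod_cast hk1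
  have hn0 : (0 : ℝ) < n := by exact_mod_cast hn
  have h1 : (c * (n : ℝ) ^ (1 + 1 / (k : ℝ))) ^ ℓ ≤ (e : ℝ) ^ ℓ :=
    pow_le_pow_left₀ (by positivity) he ℓ
  have h3 : (c * (n : ℝ) ^ (1 + 1 / (k : ℝ))) ^ ℓ =
      c ^ ℓ * (n : ℝ) ^ ((ℓ : ℝ) + (ℓ : ℝ) / (k : ℝ)) := by
    rw [mul_pow, ← Real.rpow_natCast ((n : ℝ) ^ (1 + 1 / (k : ℝ))) ℓ, ← Real.rpow_mul hn0.le]
    congr 2
    field_simp
  have h4 : (n : ℝ) ^ (ℓ + 1) =
      (n : ℝ) ^ (1 - (ℓ : ℝ) / (k : ℝ)) * (n : ℝ) ^ ((ℓ : ℝ) + (ℓ : ℝ) / (k : ℝ)) := by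
    rw [← Real.rpow_add hn0, ← Real.rpow_natCast]
    congr 1
    push_cast
    ring
  have hpos : 0 < (n : ℝ) ^ ((ℓ : ℝ) + (ℓ : ℝ) / (k : ℝ)) := Real.rpow_pos_of_pos hn0 _
  have hcl : 0 < c ^ ℓ := pow_pos hc ℓ
  have h5 : (m : ℝ) * (c ^ ℓ * (n : ℝ) ^ ((ℓ : ℝ) + (ℓ : ℝ) / (k : ℝ))) ≤
      U * C * ((n : ℝ) ^ (1 - (ℓ : ℝ) / (k : ℝ)) * (n : ℝ) ^ ((ℓ : ℝ) + (ℓ : ℝ) / (k : ℝ))) := by
    rw [← h4, ← h3]
    exact (mul_le_mul_of_nonneg_left h1 (Nat.cast_nonneg m)).trans h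
  have h6 : ((m : ℝ) * c ^ ℓ) * (n : ℝ) ^ ((ℓ : ℝ) + (ℓ : ℝ) / (k : ℝ)) ≤
      (U * C * (n : ℝ) ^ (1 - (ℓ : ℝ) / (k : ℝ))) *
        (n : ℝ) ^ ((ℓ : ℝ) + (ℓ : ℝ) / (k : ℝ)) := by
    calc _ = (m : ℝ) * (c ^ ℓ * (n : ℝ) ^ ((ℓ : ℝ) + (ℓ : ℝ) / (k : ℝ))) := by ring
      _ ≤ _ := h5
      _ = _ := by ring
  have h7 := le_of_mul_le_mul_right h6 hpos
  rw [div_mul_eq_mul_div, le_div_iff₀ hcl]
  exact h7

end Pool.Agent.R85.EvenOrb
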