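import Pool.Agent.R128.F4.Stm

/-! Small facts on components, used in the pieces NS, NCmax, Three, BX, B1, B2 of project F4. -/

namespace R85F4
open Classical R128.F4

variable {V : Type} {G : SimpleGraph V}

theorem mem_comps {S K : Finset V} : K ∈ comps G S ↔
    K ⊆ S ∧ Conn G K ∧ ∀ x ∈ K, ∀ y ∈ S, G.Adj x y → y ∈ K := by
  unfold comps
  rw [Finset.mem_filter, Finset.mem_powerset]

theorem insert_conn {K : Finset V} {v y : V} (hK : Conn G K) (hy : y ∈ K) (h : G.Adj v y) :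
    Conn G (insert v K) := by
  refine ⟨Finset.insert_nonempty _ _, fun T hT hne hcl => ?_⟩
  have key : K ⊆ T → T = insert v K := by
    intro hKT
    have hv : v ∈ T := hcl y (hKT hy) v (Finset.mem_insert_self _ _) h.symm
    exact Finset.Subset.antisymm hT (Finset.insert_subset hv hKT)
  by_cases hi : (T ∩ K).Nonempty
  · apply key
    have h1 := hK.2 (T ∩ K) Finset.inter_subset_right hi (fun x hx y hy hxy =>
      Finset.mem_inter.2 ⟨hcl x (Finset.mem_inter.1 hx).1 y (Finset.mem_insert_of_mem hy) hxy, hy⟩)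
    intro a ha
    rw [← h1] at ha
    exact (Finset.mem_inter.1 ha).1
  · exfalso
    obtain ⟨z, hz⟩ := hne
    have hzv : z = v := by
      rcases Finset.mem_insert.1 (hT hz) with h1 | h1
      · exact h1
      · exact absurd ⟨z, Finset.mem_inter.2 ⟨hz, h1⟩⟩ hi
    rw [hzv] at hz
    exact hi ⟨y, Finset.mem_inter.2 ⟨hcl v hz y (Finset.mem_insert_of_mem hy) h, hy⟩⟩

theorem sub_comp {S K C : Finset V} (hK : K ∈ comps G S) (hC : Conn G C) (hCS : C ⊆ S) {z : V}
    (hz : z ∈ C) (hz' : z ∈ K) : C ⊆ K := by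
  rw [mem_comps] at hK
  have h1 := hC.2 (C ∩ K) Finset.inter_subset_left ⟨z, Finset.mem_inter.2 ⟨hz, hz'⟩⟩
    (fun x hx y hy hxy =>
      Finset.mem_inter.2 ⟨hy, hK.2.2 x (Finset.mem_inter.1 hx).2 y (hCS hy) hxy⟩)
  intro a ha
  rw [← h1] at ha
  exact (Finset.mem_inter.1 ha).2

theorem comps_erase {S K : Finset V} {y : V} (hK : K ∈ comps G S) (hy : y ∉ K) :
    K ∈ comps G (S.erase y) := by
  rw [mem_comps] at hK ⊢
  exact ⟨fun a ha => Finset.mem_erase.2 ⟨fun h => hy (h ▸ ha), hK.1 ha⟩, hK.2.1,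
    fun a ha b hb hab => hK.2.2 a ha b (Finset.mem_of_mem_erase hb) hab⟩

theorem dg_lt {H S : Finset V} {u z : V} (hHS : H ⊆ S) (hu : u ∈ S) (hu' : u ∉ H)
    (h : G.Adj z u) : dg G H z + 1 ≤ dg G S z := by
  unfold dg
  have h1 : u ∉ H.filter (fun y => G.Adj z y) := fun h' => hu' (Finset.mem_filter.1 h').1
  rw [← Finset.card_insert_of_notMem h1]
  apply Finset.card_le_card
  intro a ha
  rcases Finset.mem_insert.1 ha with rfl | ha
  · exact Finset.mem_filter.2 ⟨hu, h⟩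
  · exact Finset.mem_filter.2 ⟨hHS (Finset.mem_filter.1 ha).1, (Finset.mem_filter.1 ha).2⟩

theorem ctx_sub {m A B : ℕ} {S K : Finset V} (h : Ctx G m A B S) (hKS : K ⊆ S)
    (hK : Conn G K) : Ctx G m A B K :=
  ⟨h.par, h.F, h.deg, hK,
    fun T hT hc => h.ih T (lt_of_lt_of_le hT (Finset.card_le_card hKS)) hc⟩

end R85F4
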