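import Mathlib

/-!
Small families of subsets of a finite set that meet every subcube of dimension 19
(random vectors over the field with two elements; sets that are not bases).
-/

set_option autoImplicit false

namespace Pool.Agent.R85.Hit

open Finset

abbrev W (r : ℕ) := Fin r → ZMod 2

variable {α : Type} [Fintype α] [DecidableEq α]

/-- No nonempty subset of `X` has zero sum. -/
def Good {r : ℕ} (v : α → W r) (X : Finset α) : Prop :=
  ∀ Z ⊆ X, Z.Nonempty → ∑ z ∈ Z, v z ≠ 0

omit [Fintype α] [DecidableEq α] in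
theorem Good.anti {r : ℕ} {v : α → W r} {X Y : Finset α} (h : Good v X) (hYX : Y ⊆ X) :
    Good v Y := fun Z hZ hne => h Z (hZ.trans hYX) hne

theorem add_self_W {r : ℕ} (x : W r) : x + x = 0 := by
  funext i
  have : ∀ a : ZMod 2, a + a = 0 := by decide
  exact this _

omit [Fintype α] in
theorem sum_symmDiff {r : ℕ} (v : α → W r) (Y Z : Finset α) :
    ∑ z ∈ symmDiff Y Z, v z = ∑ z ∈ Y, v z + ∑ z ∈ Z, v z := by
  have h1 : ∑ z ∈ Y, v z = ∑ z ∈ Y ∩ Z, v z + ∑ z ∈ Y \ Z, v z :=
    (sum_inter_add_sum_sdiff Y Z v).symm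
  have h2 : ∑ z ∈ Z, v z = ∑ z ∈ Z ∩ Y, v z + ∑ z ∈ Z \ Y, v z :=
    (sum_inter_add_sum_sdiff Z Y v).symm
  have h3 : ∑ z ∈ symmDiff Y Z, v z = ∑ z ∈ Y \ Z, v z + ∑ z ∈ Z \ Y, v z := by
    rw [symmDiff_def, sup_eq_union, sum_union]
    exact disjoint_sdiff_sdiff
  rw [h1, h2, h3, inter_comm Z Y]
  have h4 := add_self_W (∑ z ∈ Y ∩ Z, v z)
  calc _ = ∑ z ∈ Y \ Z, v z + ∑ z ∈ Z \ Y, v z + 0 := by rw [add_zero]
    _ = _ := by rw [← h4]; abel

omit [Fintype α] in
theorem not_good_of_card {r : ℕ} (v : α → W r) (X : Finset α) (h : r < #X) : ¬ Good v X := by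
  intro hg
  have hcard : #(univ : Finset (W r)) < #X.powerset := by
    rw [card_univ, card_powerset, Fintype.card_fun, ZMod.card, Fintype.card_fin]
    exact Nat.pow_lt_pow_right (by norm_num) h
  obtain ⟨Y, hY, Z, hZ, hne, heq⟩ := exists_ne_map_eq_of_card_lt_of_maps_to
    (f := fun Z => ∑ z ∈ Z, v z) hcard (fun Z _ => mem_univ _)
  rw [mem_powerset] at hY hZ
  apply hg (symmDiff Y Z)
  · intro a ha
    rw [mem_symmDiff] at ha
    rcases ha with ha | ha
    · exact hY ha.1
    · exact hZ ha.1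
  · rw [nonempty_iff_ne_empty]
    intro h0
    apply hne
    exact symmDiff_eq_bot.mp h0
  · rw [sum_symmDiff]
    rw [heq, add_self_W]

omit [Fintype α] in
/-- The exchange argument: among the sets of size `r` between `S` and `S ∪ D` one is not good. -/
theorem exchange {r : ℕ} (v : α → W r) (S D : Finset α) (hSD : Disjoint S D)
    (h1 : #S + 2 ≤ r) (h2 : r + 2 ≤ #S + #D) :
    ∃ A ⊆ D, #(S ∪ A) = r ∧ ¬ Good v (S ∪ A) := by
  by_contra hcon
  push Not at hcon
  obtain ⟨D₀, hD₀, hD₀c⟩ := exists_subset_card_eq (s := D) (n := r - #S) (by omega)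
  have hcardU : ∀ A ⊆ D, #(S ∪ A) = #S + #A := by
    intro A hA
    exact card_union_of_disjoint (disjoint_of_subset_right hA hSD)
  have hrest : 1 < #(D \ D₀) := by
    rw [card_sdiff_of_subset hD₀]
    omega
  obtain ⟨x, hx, y, hy, hxy⟩ := one_lt_card.mp hrest
  rw [mem_sdiff] at hx hy
  have claim : ∀ w ∈ D, w ∉ D₀ → ∃ Sw ⊆ S, ∑ z ∈ Sw, v z + (v w + ∑ z ∈ D₀, v z) = 0 := by
    intro w hwD hwD₀
    have hwS : w ∉ S := fun h => (disjoint_left.mp hSD h) hwD
    have hc : #(insert w (S ∪ D₀)) = r + 1 := by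
      rw [card_insert_of_notMem, hcardU _ hD₀]
      · omega
      · rw [mem_union]; tauto
    have hng := not_good_of_card v (insert w (S ∪ D₀)) (by omega)
    unfold Good at hng
    push Not at hng
    obtain ⟨Z, hZ, hne, hsum⟩ := hng
    have hwZ : w ∈ Z := by
      by_contra hw
      have hZ' : Z ⊆ S ∪ D₀ := by
        intro a ha
        have := hZ ha
        rw [mem_insert] at this
        rcases this with rfl | h
        · exact absurd ha hw
        · exact h
      exact hcon D₀ hD₀ (by rw [hcardU _ hD₀]; omega) Z hZ' hne hsum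
    have haZ : ∀ a ∈ D₀, a ∈ Z := by
      intro a ha
      by_contra haZ
      have hA : insert w (D₀.erase a) ⊆ D := by
        intro b hb
        rw [mem_insert] at hb
        rcases hb with rfl | hb
        · exact hwD
        · exact hD₀ (mem_of_mem_erase hb)
      have hAc : #(insert w (D₀.erase a)) = r - #S := by
        rw [card_insert_of_notMem, card_erase_of_mem ha]
        · have : 0 < #D₀ := card_pos.mpr ⟨a, ha⟩
          omega
        · intro h
          exact hwD₀ (mem_of_mem_erase h)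
      have hZ' : Z ⊆ S ∪ insert w (D₀.erase a) := by
        intro b hb
        have := hZ hb
        rw [mem_insert, mem_union] at this
        rw [mem_union, mem_insert, mem_erase]
        rcases this with rfl | h | h
        · exact Or.inr (Or.inl rfl)
        · exact Or.inl h
        · refine Or.inr (Or.inr ⟨?_, h⟩)
          rintro rfl
          exact haZ hb
      exact hcon _ hA (by rw [hcardU _ hA]; omega) Z hZ' hne hsum
    refine ⟨Z ∩ S, inter_subset_right, ?_⟩
    have hsplit := sum_inter_add_sum_sdiff Z S v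
    have hZS : Z \ S = insert w D₀ := by
      ext b
      rw [mem_sdiff, mem_insert]
      constructor
      · rintro ⟨hb, hbS⟩
        have := hZ hb
        rw [mem_insert, mem_union] at this
        tauto
      · rintro (rfl | hb)
        · exact ⟨hwZ, hwS⟩
        · exact ⟨haZ b hb, fun h => (disjoint_left.mp hSD h) (hD₀ hb)⟩
    rw [hZS, sum_insert hwD₀, hsum] at hsplit
    exact hsplit
  obtain ⟨Sx, hSx, hsx⟩ := claim x hx.1 hx.2
  obtain ⟨Sy, hSy, hsy⟩ := claim y hy.1 hy.2
  obtain ⟨A₁, hA₁, hA₁c⟩ := exists_subset_card_eq (s := D₀) (n := r - #S - 2) (by omega)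
  have hxS : x ∉ S := fun h => (disjoint_left.mp hSD h) hx.1
  have hyS : y ∉ S := fun h => (disjoint_left.mp hSD h) hy.1
  have hxA₁ : x ∉ A₁ := fun h => hx.2 (hA₁ h)
  have hyA₁ : y ∉ A₁ := fun h => hy.2 (hA₁ h)
  have hA : insert x (insert y A₁) ⊆ D := by
    intro b hb
    rw [mem_insert, mem_insert] at hb
    rcases hb with rfl | rfl | hb
    · exact hx.1
    · exact hy.1
    · exact hD₀ (hA₁ hb)
  have hAc : #(insert x (insert y A₁)) = r - #S := by
    rw [card_insert_of_notMem, card_insert_of_notMem hyA₁]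
    · omega
    · rw [mem_insert]
      rintro (h | h)
      · exact hxy h
      · exact hxA₁ h
  have hgood := hcon _ hA (by rw [hcardU _ hA]; omega)
  have hsub : insert x (insert y (symmDiff Sx Sy)) ⊆ S ∪ insert x (insert y A₁) := by
    intro b hb
    rw [mem_insert, mem_insert, mem_symmDiff] at hb
    rw [mem_union, mem_insert, mem_insert]
    rcases hb with rfl | rfl | hb | hb
    · tauto
    · tauto
    · exact Or.inl (hSx hb.1)
    · exact Or.inl (hSy hb.1)
  apply hgood _ hsub ⟨x, mem_insert_self _ _⟩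
  have hsdS : symmDiff Sx Sy ⊆ S := by
    intro b hb
    rw [mem_symmDiff] at hb
    rcases hb with hb | hb
    · exact hSx hb.1
    · exact hSy hb.1
  rw [sum_insert, sum_insert, sum_symmDiff]
  · have h3 : ∑ z ∈ Sx, v z + (v x + ∑ z ∈ D₀, v z) + (∑ z ∈ Sy, v z + (v y + ∑ z ∈ D₀, v z)) = 0 := by
      rw [hsx, hsy, add_zero]
    have h4 := add_self_W (∑ z ∈ D₀, v z)
    calc _ = v x + (v y + (∑ z ∈ Sx, v z + ∑ z ∈ Sy, v z)) + 0 := by rw [add_zero]
      _ = v x + (v y + (∑ z ∈ Sx, v z + ∑ z ∈ Sy, v z)) + (∑ z ∈ D₀, v z + ∑ z ∈ D₀, v z) := by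
          rw [h4]
      _ = ∑ z ∈ Sx, v z + (v x + ∑ z ∈ D₀, v z) + (∑ z ∈ Sy, v z + (v y + ∑ z ∈ D₀, v z)) := by
          abel
      _ = 0 := h3
  · exact fun h => hyS (hsdS h)
  · rw [mem_insert]
    rintro (h | h)
    · exact hxy h
    · exact hxS (hsdS h)

/-- `4 ∏_{i<r} (2^r - 2^i) ≥ 2^(r*r)`. -/
theorem prod_bound (r : ℕ) : (2 ^ r) ^ r ≤ 4 * ∏ i ∈ range r, (2 ^ r - 2 ^ i) := by
  have hrec : ∀ r : ℕ, ∏ i ∈ range (r + 1), (2 ^ (r + 1) - 2 ^ i) =
      (2 ^ (r + 1) - 1) * (2 ^ r * ∏ i ∈ range r, (2 ^ r - 2 ^ i)) := by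
    intro r
    rw [prod_range_succ', pow_zero, mul_comm]
    congr 1
    have : ∀ i ∈ range r, 2 ^ (r + 1) - 2 ^ (i + 1) = 2 * (2 ^ r - 2 ^ i) := by
      intro i _
      rw [Nat.mul_sub, pow_succ, pow_succ]
      ring_nf
    rw [prod_congr rfl this, prod_mul_distrib, prod_const, card_range]
  have key : ∀ r : ℕ, (2 ^ r + 1) * ((2 ^ (r + 1)) ^ (r + 1)) ≤
      4 * 2 ^ r * ∏ i ∈ range (r + 1), (2 ^ (r + 1) - 2 ^ i) := by
    intro r
    induction r with
    | zero => simp
    | succ r ih =>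
      rw [hrec (r + 1)]
      have e3 : (2 ^ (r + 1 + 1)) ^ (r + 1 + 1) =
          (2 ^ (r + 1)) ^ (r + 1) * (2 ^ (r + 1) * 2 ^ (r + 1 + 1)) := by
        rw [pow_succ (2 ^ (r + 1 + 1)) (r + 1), pow_succ 2 (r + 1), mul_pow]
        ring
      rw [e3]
      have e2 : 2 ^ (r + 1 + 1) = 4 * 2 ^ r := by ring
      have e1 : 2 ^ (r + 1) = 2 * 2 ^ r := by ring
      generalize ∏ i ∈ range (r + 1), (2 ^ (r + 1) - 2 ^ i) = P at ih ⊢
      generalize (2 ^ (r + 1)) ^ (r + 1) = Q at ih ⊢
      rw [e2, e1]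
      have ht1 : 1 ≤ 2 ^ r := Nat.one_le_two_pow
      generalize 2 ^ r = t at ih ht1 ⊢
      obtain ⟨s, hs⟩ : ∃ s, 4 * t - 1 = s := ⟨_, rfl⟩
      have h4t : s + 1 = 4 * t := by omega
      rw [hs]
      have h5 : s * ((t + 1) * Q) ≤ s * (4 * t * P) := Nat.mul_le_mul_left _ ih
      have h7 : (2 * t + 1) * (2 * t) ≤ s * (t + 1) := by nlinarith
      calc (2 * t + 1) * (Q * (2 * t * (4 * t))) = ((2 * t + 1) * (2 * t)) * (Q * (4 * t)) := by ring
        _ ≤ (s * (t + 1)) * (Q * (4 * t)) := Nat.mul_le_mul_right _ h7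
        _ = 4 * t * (s * ((t + 1) * Q)) := by ring
        _ ≤ 4 * t * (s * (4 * t * P)) := Nat.mul_le_mul_left _ h5
        _ = 4 * (2 * t) * (s * (2 * t * P)) := by ring
  rcases r with _ | r
  · simp
  · have h := key r
    have hpos : 0 < 2 ^ r := by positivity
    have h1 : 2 ^ r * ((2 ^ (r + 1)) ^ (r + 1)) ≤
        2 ^ r * (4 * ∏ i ∈ range (r + 1), (2 ^ (r + 1) - 2 ^ i)) := by
      calc 2 ^ r * ((2 ^ (r + 1)) ^ (r + 1)) ≤ (2 ^ r + 1) * ((2 ^ (r + 1)) ^ (r + 1)) :=
            Nat.mul_le_mul_right _ (by omega)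
        _ ≤ _ := h
        _ = _ := by ring
    exact Nat.le_of_mul_le_mul_left h1 hpos

/-- At least a quarter of the assignments are good on a set of size `r`. -/
theorem count_good {r : ℕ} (X : Finset α) (hX : #X = r) [DecidablePred fun v : α → W r => Good v X] :
    #(univ : Finset (α → W r)) ≤ 4 * #(univ.filter (fun v : α → W r => Good v X)) := by
  classical
  -- equivalence of X with Fin r
  let e : X ≃ Fin r := (Fintype.equivFinOfCardEq (by simpa using hX))
  let F : {s : Fin r → W r // LinearIndependent (ZMod 2) s} × ({a // a ∉ X} → W r) → (α → W r) :=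
    fun p a => if h : a ∈ X then p.1.1 (e ⟨a, h⟩) else p.2 ⟨a, h⟩
  have hFinj : Function.Injective F := by
    rintro ⟨⟨s, hs⟩, t⟩ ⟨⟨s', hs'⟩, t'⟩ h
    have h1 : s = s' := by
      funext i
      have := congrFun h (e.symm i).1
      simp only [F, dif_pos (e.symm i).2, Subtype.coe_eta, Equiv.apply_symm_apply] at this
      exact this
    have h2 : t = t' := by
      funext a
      have := congrFun h a.1
      simp only [F, dif_neg a.2, Subtype.coe_eta] at this
      exact this
    subst h1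
    subst h2
    rfl
  have hFgood : ∀ p, Good (F p) X := by
    rintro ⟨⟨s, hs⟩, t⟩ Z hZ ⟨z, hz⟩ hsum
    have hs' := hs
    rw [Fintype.linearIndependent_iff] at hs'
    have h3 : ∑ i, (if (e.symm i).1 ∈ Z then (1 : ZMod 2) else 0) • s i =
        ∑ z ∈ Z, F (⟨s, hs⟩, t) z := by
      rw [← Equiv.sum_comp e]
      have : ∀ x : X, (if (e.symm (e x)).1 ∈ Z then (1 : ZMod 2) else 0) • s (e x) =
          if x.1 ∈ Z then F (⟨s, hs⟩, t) x.1 else 0 := by
        intro x
        rw [e.symm_apply_apply]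
        split_ifs
        · rw [one_smul]
          simp [F]
        · rw [zero_smul]
      rw [sum_congr rfl (fun x _ => this x),
        Finset.sum_coe_sort X (fun z => if z ∈ Z then F (⟨s, hs⟩, t) z else 0),
        Finset.sum_ite_mem, inter_eq_right.mpr hZ]
    have h1 := hs' _ (h3.trans hsum) (e ⟨z, hZ hz⟩)
    simp [hz] at h1
  have hcardle : Fintype.card ({s : Fin r → W r // LinearIndependent (ZMod 2) s} ×
      ({a // a ∉ X} → W r)) ≤ #(univ.filter (fun v : α → W r => Good v X)) := by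
    rw [← card_univ]
    apply card_le_card_of_injOn F
    · intro p _
      simp only [coe_filter, mem_univ, true_and, Set.mem_ofPred_eq]
      exact hFgood p
    · exact hFinj.injOn
  have hLI : Fintype.card {s : Fin r → W r // LinearIndependent (ZMod 2) s} =
      ∏ i ∈ range r, (2 ^ r - 2 ^ i) := by
    rw [← Nat.card_eq_fintype_card, card_linearIndependent (by simp), prod_range]
    simp
  have hα : Fintype.card α = r + Fintype.card {a // a ∉ X} := by
    rw [← Fintype.card_congr (Equiv.sumCompl (· ∈ X)), Fintype.card_sum, Fintype.card_coe, hX]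
  rw [Fintype.card_prod, hLI] at hcardle
  have hfun : Fintype.card (α → W r) = (2 ^ r) ^ r * Fintype.card ({a // a ∉ X} → W r) := by
    rw [Fintype.card_fun, Fintype.card_fun (α := {a // a ∉ X}), hα, pow_add]
    simp
  rw [card_univ, hfun]
  calc (2 ^ r) ^ r * Fintype.card ({a // a ∉ X} → W r)
      ≤ (4 * ∏ i ∈ range r, (2 ^ r - 2 ^ i)) * Fintype.card ({a // a ∉ X} → W r) :=
        Nat.mul_le_mul_right _ (prod_bound r)
    _ = 4 * ((∏ i ∈ range r, (2 ^ r - 2 ^ i)) * Fintype.card ({a // a ∉ X} → W r)) := by ring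
    _ ≤ _ := Nat.mul_le_mul_left _ hcardle

/-- Some assignment is bad for at most three quarters of the `r`-subsets of `B`. -/
theorem exists_assignment (B : Finset α) (r : ℕ) :
    ∃ v : α → W r, ∀ _ : DecidablePred fun X : Finset α => ¬ Good v X,
      4 * #((B.powersetCard r).filter (fun X => ¬ Good v X)) ≤ 3 * (#B).choose r := by
  classical
  have hsum : ∑ v : α → W r, 4 * #((B.powersetCard r).filter (fun X => ¬ Good v X)) ≤
      ∑ _v : α → W r, 3 * (#B).choose r := by
    have h1 : ∑ v : α → W r, #((B.powersetCard r).filter (fun X => ¬ Good v X)) =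
        ∑ X ∈ B.powersetCard r, #(univ.filter (fun v : α → W r => ¬ Good v X)) := by
      simp only [card_filter]
      rw [sum_comm]
    rw [← mul_sum, h1, sum_const, smul_eq_mul, mul_sum]
    have h2 : ∀ X ∈ B.powersetCard r, 4 * #(univ.filter (fun v : α → W r => ¬ Good v X)) ≤
        3 * #(univ : Finset (α → W r)) := by
      intro X hX
      have h3 := count_good X (mem_powersetCard.mp hX).2
      have h4 := card_filter_add_card_filter_not (s := (univ : Finset (α → W r)))
        (fun v : α → W r => Good v X)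
      omega
    calc ∑ X ∈ B.powersetCard r, 4 * #(univ.filter (fun v : α → W r => ¬ Good v X))
        ≤ ∑ X ∈ B.powersetCard r, 3 * #(univ : Finset (α → W r)) := sum_le_sum h2
      _ = #(univ : Finset (α → W r)) * (3 * (#B).choose r) := by
        rw [sum_const, smul_eq_mul, card_powersetCard]; ring
  obtain ⟨v, _, hv⟩ := exists_le_of_sum_le (s := (univ : Finset (α → W r))) ⟨0, mem_univ _⟩ hsum
  refine ⟨v, fun inst => ?_⟩
  have hinst : inst = fun X => Classical.propDecidable (¬ Good v X) := Subsingleton.elim _ _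
  rw [hinst]
  exact (le_of_eq (by congr)).trans hv

/-- A family of at most `3/64` of all subsets of `B` that meets every 19-dimensional subcube. -/
theorem exists_hitting (B : Finset α) :
    ∃ V : Finset (Finset α), 64 * #V ≤ 3 * 2 ^ #B ∧
      ∀ S D : Finset α, S ⊆ B → D ⊆ B → Disjoint S D → 19 ≤ #D →
        ∃ A ⊆ D, S ∪ A ∈ V := by
  classical
  choose v hv using fun r => exists_assignment B r
  let Q : Finset (Finset α) := B.powerset.filter (fun X => ¬ Good (v (#X)) X)
  have hQ : 4 * #Q ≤ 3 * 2 ^ #B := by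
    have h1 : #Q = ∑ r ∈ range (#B + 1), #((B.powersetCard r).filter (fun X => ¬ Good (v r) X)) := by
      have h2 : #Q = ∑ r ∈ range (#B + 1), #(Q.filter (fun X => #X = r)) := by
        apply card_eq_sum_card_fiberwise
        intro X hX
        have := (mem_filter.mp hX).1
        rw [mem_powerset] at this
        have := card_le_card this
        simp only [coe_range, Set.mem_Iio]
        omega
      rw [h2]
      apply sum_congr rfl
      intro r _
      congr 1
      ext X
      simp only [Q, mem_filter, mem_powerset, mem_powersetCard]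
      constructor
      · rintro ⟨⟨h3, h4⟩, rfl⟩
        exact ⟨⟨h3, rfl⟩, h4⟩
      · rintro ⟨⟨h3, rfl⟩, h4⟩
        exact ⟨⟨h3, h4⟩, rfl⟩
    rw [h1, mul_sum]
    calc ∑ r ∈ range (#B + 1), 4 * #((B.powersetCard r).filter (fun X => ¬ Good (v r) X))
        ≤ ∑ r ∈ range (#B + 1), 3 * (#B).choose r := sum_le_sum (fun r _ => hv r _)
      _ = 3 * 2 ^ #B := by rw [← mul_sum, Nat.sum_range_choose]
  -- choose the residue class
  have hres : ∑ a ∈ range 16, 16 * #(Q.filter (fun X => #X % 16 = a)) ≤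
      ∑ _a ∈ range 16, #Q := by
    rw [← mul_sum, ← card_eq_sum_card_fiberwise, sum_const, card_range, smul_eq_mul]
    intro X _
    simp only [coe_range, Set.mem_Iio]
    exact Nat.mod_lt _ (by norm_num)
  obtain ⟨a, ha, hle⟩ := exists_le_of_sum_le (s := range 16) ⟨0, by simp⟩ hres
  rw [mem_range] at ha
  refine ⟨Q.filter (fun X => #X % 16 = a), by omega, ?_⟩
  intro S D hS hD hSD hD19
  obtain ⟨r, hr1, hr2, hr3⟩ : ∃ r, #S + 2 ≤ r ∧ r ≤ #S + 17 ∧ r % 16 = a :=
    ⟨#S + 2 + (a + 15 * (#S + 2)) % 16, by omega, by omega, by omega⟩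
  obtain ⟨A, hA, hAc, hAg⟩ := exchange (v r) S D hSD hr1 (by omega)
  refine ⟨A, hA, ?_⟩
  rw [mem_filter, mem_filter, mem_powerset]
  refine ⟨⟨union_subset hS (hA.trans hD), ?_⟩, by rw [hAc, hr3]⟩
  subst hAc
  exact hAg

end Pool.Agent.R85.Hit
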