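import Mathlib

/-!
Regular graphs of arbitrary degree all of whose small vertex sets are thin (induce forests),
obtained by iterating the elementary abelian 2-cover.
-/

set_option autoImplicit false

namespace Pool.Agent.R85

open Finset SimpleGraph

universe u

/-- The vertex `v` has at most one neighbour in `S`. -/
def Low {V : Type u} (G : SimpleGraph V) (S : Finset V) (v : V) : Prop :=
  ∀ a ∈ S, ∀ b ∈ S, G.Adj v a → G.Adj v b → a = b

/-- Every vertex set with at least two and at most `s` vertices has two vertices, each having at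
most one neighbour in the set. (Equivalently: no cycle of length at most `s`.) -/
def Thin {V : Type u} (G : SimpleGraph V) (s : ℕ) : Prop :=
  ∀ S : Finset V, 2 ≤ #S → #S ≤ s → ∃ v ∈ S, ∃ w ∈ S, v ≠ w ∧ Low G S v ∧ Low G S w

theorem Thin.mono {V : Type u} {G : SimpleGraph V} {s t : ℕ} (h : Thin G s) (hts : t ≤ s) :
    Thin G t := fun S h1 h2 => h S h1 (h2.trans hts)

theorem Thin.of_contained {V W : Type u} {G : SimpleGraph V} {H : SimpleGraph W} {s : ℕ}
    (h : Thin H s) (f : Copy G H) : Thin G s := by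
  classical
  intro S h1 h2
  obtain ⟨v', hv', w', hw', hne, hv, hw⟩ := h (S.map f.toEmbedding) (by simpa using h1)
    (by simpa using h2)
  rw [mem_map] at hv' hw'
  obtain ⟨v, hvS, rfl⟩ := hv'
  obtain ⟨w, hwS, rfl⟩ := hw'
  refine ⟨v, hvS, w, hwS, fun h => hne (by rw [h]), ?_, ?_⟩
  · intro a ha b hb hva hvb
    apply f.toEmbedding.injective
    exact hv _ (mem_map_of_mem _ ha) _ (mem_map_of_mem _ hb) (f.toHom.map_adj hva)
      (f.toHom.map_adj hvb)
  · intro a ha b hb hva hvb
    apply f.toEmbedding.injective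
    exact hw _ (mem_map_of_mem _ ha) _ (mem_map_of_mem _ hb) (f.toHom.map_adj hva)
      (f.toHom.map_adj hvb)

/-- The elementary abelian 2-cover of `G`. -/
def lift {V : Type u} [DecidableEq V] (G : SimpleGraph V) :
    SimpleGraph (V × (Sym2 V → ZMod 2)) where
  Adj p q := G.Adj p.1 q.1 ∧ q.2 = p.2 + Pi.single s(p.1, q.1) 1
  symm := ⟨by
    rintro p q ⟨h1, h2⟩
    refine ⟨h1.symm, ?_⟩
    rw [h2, Sym2.eq_swap, add_assoc, ← Pi.single_add]
    have : (1 : ZMod 2) + 1 = 0 := by decide
    rw [this, Pi.single_zero, add_zero]⟩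
  loopless := ⟨fun p h => G.loopless.irrefl p.1 h.1⟩

theorem lift_adj {V : Type u} [DecidableEq V] (G : SimpleGraph V) (p q : V × (Sym2 V → ZMod 2)) :
    (lift G).Adj p q ↔ G.Adj p.1 q.1 ∧ q.2 = p.2 + Pi.single s(p.1, q.1) 1 := Iff.rfl

theorem low_of_low_image {V : Type u} [DecidableEq V] {G : SimpleGraph V}
    {S : Finset (V × (Sym2 V → ZMod 2))} {p : V × (Sym2 V → ZMod 2)}
    (h : Low G (S.image Prod.fst) p.1) : Low (lift G) S p := by
  intro a ha b hb hpa hpb
  rw [lift_adj] at hpa hpb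
  have h1 : a.1 = b.1 := h _ (mem_image_of_mem _ ha) _ (mem_image_of_mem _ hb) hpa.1 hpb.1
  apply Prod.ext h1
  rw [hpa.2, hpb.2, h1]

/-- Sets whose projection is small are fine. -/
theorem lift_thin_aux {V : Type u} [DecidableEq V] {G : SimpleGraph V} {s : ℕ} (h : Thin G s)
    (S : Finset (V × (Sym2 V → ZMod 2))) (h2 : 2 ≤ #S) (hs : #(S.image Prod.fst) ≤ s) :
    ∃ v ∈ S, ∃ w ∈ S, v ≠ w ∧ Low (lift G) S v ∧ Low (lift G) S w := by
  by_cases hT : 2 ≤ #(S.image Prod.fst)
  · obtain ⟨v, hv, w, hw, hne, hlv, hlw⟩ := h _ hT hs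
    rw [mem_image] at hv hw
    obtain ⟨p, hp, rfl⟩ := hv
    obtain ⟨q, hq, rfl⟩ := hw
    exact ⟨p, hp, q, hq, fun h => hne (by rw [h]), low_of_low_image hlv, low_of_low_image hlw⟩
  · have hT' : #(S.image Prod.fst) ≤ 1 := by omega
    rw [card_le_one] at hT'
    obtain ⟨p, hp, q, hq, hne⟩ := one_lt_card.mp (show 1 < #S by omega)
    have hlow : ∀ r ∈ S, Low (lift G) S r := by
      intro r hr a ha b hb hra hrb
      exfalso
      have : r.1 = a.1 := hT' _ (mem_image_of_mem _ hr) _ (mem_image_of_mem _ ha)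
      exact hra.1.ne this
    exact ⟨p, hp, q, hq, hne, hlow p hp, hlow q hq⟩

theorem side_aux {V : Type u} [DecidableEq V] {L : SimpleGraph V} {s : ℕ}
    {S S' : Finset V} (hthin : Thin L s) (z z' : V) (hz : z ∈ S')
    (hs : #S' ≤ s)
    (hcross : ∀ p ∈ S', ∀ q ∈ S, q ∉ S' → L.Adj p q → p = z ∧ q = z') :
    ∃ p ∈ S', Low L S p := by
  by_cases h1 : 2 ≤ #S'
  · obtain ⟨p₁, hp₁, p₂, hp₂, hne, hl₁, hl₂⟩ := hthin S' h1 hs
    obtain ⟨p, hp, hpz, hl⟩ : ∃ p ∈ S', p ≠ z ∧ Low L S' p := by
      by_cases h : p₁ = z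
      · exact ⟨p₂, hp₂, fun h' => hne (h.trans h'.symm), hl₂⟩
      · exact ⟨p₁, hp₁, h, hl₁⟩
    refine ⟨p, hp, ?_⟩
    intro a ha b hb hpa hpb
    have haS : a ∈ S' := by
      by_contra hcon
      exact hpz (hcross p hp a ha hcon hpa).1
    have hbS : b ∈ S' := by
      by_contra hcon
      exact hpz (hcross p hp b hb hcon hpb).1
    exact hl a haS b hbS hpa hpb
  · have hcard : #S' ≤ 1 := by omega
    rw [card_le_one] at hcard
    refine ⟨z, hz, ?_⟩
    have key : ∀ a ∈ S, L.Adj z a → a = z' := by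
      intro a ha hza
      apply (hcross z hz a ha _ hza).2
      intro haS
      exact hza.ne (hcard z hz a haS)
    intro a ha b hb hza hzb
    rw [key a ha hza, key b hb hzb]

theorem lift_thin {V : Type u} [DecidableEq V] {G : SimpleGraph V} {s : ℕ} (h : Thin G s) :
    Thin (lift G) (s + 1) := by
  classical
  have hthin : Thin (lift G) s := by
    intro S h1 h2
    exact lift_thin_aux h S h1 (card_image_le.trans h2)
  intro S h1 h2
  by_cases hcase : #(S.image Prod.fst) ≤ s
  · exact lift_thin_aux h S h1 hcase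
  have hinj : #(S.image Prod.fst) = #S := by
    have := card_image_le (s := S) (f := Prod.fst)
    omega
  rw [card_image_iff] at hinj
  have hScard : #S = s + 1 := by
    have := card_image_le (s := S) (f := Prod.fst)
    omega
  by_cases hedge : ∃ p ∈ S, ∃ q ∈ S, (lift G).Adj p q
  · obtain ⟨p, hp, q, hq, hpq⟩ := hedge
    set e : Sym2 V := s(p.1, q.1) with he
    have hpq' := hpq
    rw [lift_adj] at hpq'
    have hval : q.2 e = p.2 e + 1 := by
      rw [hpq'.2, Pi.add_apply, Pi.single_eq_same]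
    have hne : q.2 e ≠ p.2 e := by
      rw [hval]
      intro hh
      have : (1 : ZMod 2) = 0 := by
        have := add_eq_left.mp hh
        exact this
      exact absurd this (by decide)
    -- crossing edges
    have hcr : ∀ a ∈ S, ∀ b ∈ S, (lift G).Adj a b → a.2 e ≠ b.2 e →
        (a = p ∧ b = q) ∨ (a = q ∧ b = p) := by
      intro a ha b hb hab hne'
      rw [lift_adj] at hab
      have h3 : s(a.1, b.1) = e := by
        by_contra hcon
        apply hne'
        rw [hab.2, Pi.add_apply, Pi.single_eq_of_ne (fun h => hcon h.symm), add_zero]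
      rw [he, Sym2.eq_iff] at h3
      rcases h3 with ⟨h3, h4⟩ | ⟨h3, h4⟩
      · exact Or.inl ⟨hinj ha hp h3, hinj hb hq h4⟩
      · exact Or.inr ⟨hinj ha hq h3, hinj hb hp h4⟩
    set S₀ := S.filter (fun r => r.2 e = p.2 e) with hS₀
    set S₁ := S.filter (fun r => ¬ r.2 e = p.2 e) with hS₁
    have hpS₀ : p ∈ S₀ := by rw [hS₀, mem_filter]; exact ⟨hp, rfl⟩
    have hqS₁ : q ∈ S₁ := by rw [hS₁, mem_filter]; exact ⟨hq, hne⟩
    have hsum : #S₀ + #S₁ = #S := card_filter_add_card_filter_not _
    have h0 : 0 < #S₀ := card_pos.mpr ⟨p, hpS₀⟩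
    have h1' : 0 < #S₁ := card_pos.mpr ⟨q, hqS₁⟩
    obtain ⟨a, ha, hla⟩ := side_aux (S := S) (S' := S₀) hthin p q hpS₀ (by omega) (by
      intro a ha b hb hbS hab
      rw [hS₀, mem_filter] at ha hbS
      have hbne : b.2 e ≠ p.2 e := fun h => hbS ⟨hb, h⟩
      have hne2 : a.2 e ≠ b.2 e := by rw [ha.2]; exact hbne.symm
      rcases hcr a ha.1 b hb hab hne2 with h | h
      · exact h
      · exfalso
        apply hne
        rw [← h.1]; exact ha.2)
    obtain ⟨b, hb, hlb⟩ := side_aux (S := S) (S' := S₁) hthin q p hqS₁ (by omega) (by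
      intro a ha b hb hbS hab
      rw [hS₁, mem_filter] at ha hbS
      have hbeq : b.2 e = p.2 e := by
        by_contra hcon
        exact hbS ⟨hb, hcon⟩
      have hne2 : a.2 e ≠ b.2 e := by rw [hbeq]; exact ha.2
      rcases hcr a ha.1 b hb hab hne2 with h | h
      · exfalso
        apply ha.2
        rw [h.1]
      · exact h)
    refine ⟨a, mem_of_mem_filter _ ha, b, mem_of_mem_filter _ hb, ?_, hla, hlb⟩
    rintro rfl
    rw [hS₀, mem_filter] at ha
    rw [hS₁, mem_filter] at hb
    exact hb.2 ha.2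
  · push Not at hedge
    obtain ⟨p, hp, q, hq, hne⟩ := one_lt_card.mp (show 1 < #S by omega)
    exact ⟨p, hp, q, hq, hne, fun a ha b hb hpa _ => absurd hpa (hedge p hp a ha),
      fun a ha b hb hqa _ => absurd hqa (hedge q hq a ha)⟩

theorem lift_ncard {V : Type u} [DecidableEq V] (G : SimpleGraph V)
    (p : V × (Sym2 V → ZMod 2)) :
    ((lift G).neighborSet p).ncard = (G.neighborSet p.1).ncard := by
  have : (lift G).neighborSet p =
      (fun v => (v, p.2 + Pi.single s(p.1, v) 1)) '' (G.neighborSet p.1) := by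
    ext q
    simp only [mem_neighborSet, lift_adj, Set.mem_image]
    constructor
    · rintro ⟨h1, h2⟩
      exact ⟨q.1, h1, by rw [← h2]⟩
    · rintro ⟨v, hv, rfl⟩
      exact ⟨hv, rfl⟩
  rw [this, Set.ncard_image_of_injective]
  intro a b hab
  simp only [Prod.mk.injEq] at hab
  exact hab.1

/-- For all `d` and `s` there is a finite `d`-regular graph that is thin up to size `s`. -/
theorem exists_regular_thin (d s : ℕ) :
    ∃ (V : Type) (_ : Fintype V) (_ : DecidableEq V) (G : SimpleGraph V),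
      Nonempty V ∧ (∀ v, (G.neighborSet v).ncard = d) ∧ Thin G s := by
  induction s with
  | zero =>
    refine ⟨Fin (d + 1), inferInstance, inferInstance, ⊤, ⟨0⟩, ?_, ?_⟩
    · intro v
      have : (⊤ : SimpleGraph (Fin (d + 1))).neighborSet v = {v}ᶜ := by
        ext w
        simp [eq_comm]
      rw [this, Set.ncard_compl, Set.ncard_singleton, Nat.card_eq_fintype_card, Fintype.card_fin]
      omega
    · intro S h1 h2
      omega
  | succ s ih =>
    obtain ⟨V, _, _, G, ⟨v₀⟩, hreg, hthin⟩ := ih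
    refine ⟨V × (Sym2 V → ZMod 2), inferInstance, inferInstance, lift G, ⟨(v₀, 0)⟩, ?_,
      lift_thin hthin⟩
    intro p
    rw [lift_ncard, hreg]

/-- The same on `Fin N`, with the number of edges recorded. -/
theorem exists_regular_thin_fin (d s : ℕ) :
    ∃ (N : ℕ) (G : SimpleGraph (Fin N)), d < N ∧ 2 * G.edgeSet.ncard = d * N ∧ Thin G s := by
  classical
  obtain ⟨V, _, _, G, ⟨v₀⟩, hreg, hthin⟩ := exists_regular_thin d s
  refine ⟨Fintype.card V, G.overFin rfl, ?_, ?_, ?_⟩
  · have h1 := hreg v₀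
    have h2 : insert v₀ (G.neighborSet v₀) ⊆ Set.univ := Set.subset_univ _
    have h3 := Set.ncard_le_ncard h2 Set.finite_univ
    rw [Set.ncard_insert_of_notMem (by simp) (Set.toFinite _), Set.ncard_univ,
      Nat.card_eq_fintype_card, h1] at h3
    omega
  · set G' := G.overFin rfl
    set f : G ≃g G' := G.overFinIso rfl
    have hreg' : ∀ w, G'.degree w = d := by
      intro w
      have h1 : G'.degree (f (f.symm w)) = G.degree (f.symm w) := f.degree_eq _
      rw [f.apply_symm_apply] at h1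
      have h3 := Set.ncard_coe_finset (G.neighborFinset (f.symm w))
      rw [coe_neighborFinset, card_neighborFinset_eq_degree, hreg] at h3
      rw [h1, h3]
    have h2 := G'.sum_degrees_eq_twice_card_edges
    simp only [hreg', sum_const, smul_eq_mul, card_univ, Fintype.card_fin] at h2
    rw [← coe_edgeFinset, Set.ncard_coe_finset]
    linarith
  · exact hthin.of_contained (G.overFinIso rfl).symm.toCopy

end Pool.Agent.R85
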