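import Mathlib

/-!
# Colorful triangulations of a polygon: definitions

The vertices of the convex `N`-gon are `1, ..., N`, the vertex `i` has the color `i mod 3`.
-/

set_option autoImplicit false

namespace Pool.Agent.R85.TwistGraph

/-- `p = (i, j)`, `i < j`, is a diagonal of the convex `N`-gon with the vertices `1, ..., N`. -/
def IsDiagonal (N : ℕ) (p : ℕ × ℕ) : Prop :=
  1 ≤ p.1 ∧ p.1 + 1 < p.2 ∧ p.2 ≤ N ∧ ¬ (p.1 = 1 ∧ p.2 = N)

/-- Two diagonals cross. -/
def Cross (p q : ℕ × ℕ) : Prop :=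
  (p.1 < q.1 ∧ q.1 < p.2 ∧ p.2 < q.2) ∨ (q.1 < p.1 ∧ p.1 < q.2 ∧ q.2 < p.2)

/-- A triangulation of the convex `N`-gon: a maximal set of pairwise non-crossing diagonals. -/
structure IsTriangulation (N : ℕ) (T : Finset (ℕ × ℕ)) : Prop where
  diagonal : ∀ p ∈ T, IsDiagonal N p
  noncrossing : ∀ p ∈ T, ∀ q ∈ T, ¬ Cross p q
  maximal : ∀ p, IsDiagonal N p → (∀ q ∈ T, ¬ Cross p q) → p ∈ T

/-- For `i < j`: the vertices `i`, `j` are joined by a diagonal in `T` or by a side of the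
`N`-gon. -/
def Joined (N : ℕ) (T : Finset (ℕ × ℕ)) (i j : ℕ) : Prop :=
  (i, j) ∈ T ∨ (1 ≤ i ∧ j = i + 1 ∧ j ≤ N) ∨ (i = 1 ∧ j = N)

/-- Every triangle `a < b < c` of `T` has exactly one vertex of each of the three colors. -/
def Colorful (N : ℕ) (T : Finset (ℕ × ℕ)) : Prop :=
  ∀ a b c : ℕ, a < b → b < c → Joined N T a b → Joined N T b c → Joined N T a c →
    a % 3 ≠ b % 3 ∧ b % 3 ≠ c % 3 ∧ a % 3 ≠ c % 3

/-- `T'` is obtained from `T` by a twist in a hexagon with the vertices `a < b < c < d < e < f`: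
the sides of the hexagon are diagonals in `T` or sides of the `N`-gon, and the three diagonals
of `T` which form the inner triangle `ace` (or `bdf`) are replaced by the sides of `bdf`
(or `ace`). -/
def Twist (N : ℕ) (T T' : Finset (ℕ × ℕ)) : Prop :=
  ∃ a b c d e f : ℕ, (a < b ∧ b < c ∧ c < d ∧ d < e ∧ e < f) ∧
    (Joined N T a b ∧ Joined N T b c ∧ Joined N T c d ∧ Joined N T d e ∧ Joined N T e f ∧
      Joined N T a f) ∧
    ((({(a, c), (c, e), (a, e)} : Finset (ℕ × ℕ)) ⊆ T ∧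
        T' = (T \ {(a, c), (c, e), (a, e)}) ∪ {(b, d), (d, f), (b, f)}) ∨
      (({(b, d), (d, f), (b, f)} : Finset (ℕ × ℕ)) ⊆ T ∧
        T' = (T \ {(b, d), (d, f), (b, f)}) ∪ {(a, c), (c, e), (a, e)}))

/-- The graph `H_N`: its vertices are the colorful triangulations of the `N`-gon, and two of them
are adjacent when one is obtained from the other by a twist. -/
def twistGraph (N : ℕ) :
    SimpleGraph {T : Finset (ℕ × ℕ) // IsTriangulation N T ∧ Colorful N T} :=
  SimpleGraph.fromRel fun T T' => Twist N T.1 T'.1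

end Pool.Agent.R85.TwistGraph
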