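import Pool.Agent.R85.TwistDefs

/-!
# The twist graph of the colorful triangulations of the 14-gon is connected

The 140 colorful triangulations are enumerated by a recursion over intervals, and a spanning tree
is checked by the kernel.
-/

set_option autoImplicit false

namespace Pool.Agent.R85.TwistGraph

/-! ## The triangulations are found by a recursion over intervals -/

/-- the diagonal `(i, k)` as a list, empty for a side -/
def dg (i k : ℕ) : List (ℕ × ℕ) := if k = i + 1 then [] else [(i, k)]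

/-- all colorful triangulations of the polygon on `i, ..., j` (without the diagonal `(i, j)`) -/
def tri : ℕ → ℕ → ℕ → List (List (ℕ × ℕ))
  | 0, _, _ => [[]]
  | n + 1, i, j =>
    if j ≤ i + 1 then [[]] else
      (List.range (j - i - 1)).flatMap fun t =>
        if i % 3 ≠ (i + 1 + t) % 3 ∧ (i + 1 + t) % 3 ≠ j % 3 ∧ i % 3 ≠ j % 3 then
          (tri n i (i + 1 + t)).flatMap fun x =>
            (tri n (i + 1 + t) j).map fun y => dg i (i + 1 + t) ++ dg (i + 1 + t) j ++ x ++ y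
        else []

theorem Joined.lt_bounds {N : ℕ} {T : Finset (ℕ × ℕ)} (hT : IsTriangulation N T) {i j : ℕ}
    (h : Joined N T i j) : 1 ≤ i ∧ j ≤ N := by
  rcases h with h | h | h
  · have := hT.diagonal _ h
    unfold IsDiagonal at this
    exact ⟨this.1, this.2.2.1⟩
  · omega
  · omega

/-- In a triangulation every edge is a side of a triangle on the side of larger intervals. -/
theorem exists_apex {N : ℕ} {T : Finset (ℕ × ℕ)} (hT : IsTriangulation N T) {i j : ℕ}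
    (hij : i + 1 < j) (h : Joined N T i j) :
    ∃ k, i < k ∧ k < j ∧ Joined N T i k ∧ Joined N T k j := by
  classical
  have hb := h.lt_bounds hT
  -- the largest neighbour `k < j` of `i`
  let S := (Finset.Ioo i j).filter fun k => Joined N T i k
  have hS : S.Nonempty := by
    refine ⟨i + 1, ?_⟩
    simp only [S, Finset.mem_filter, Finset.mem_Ioo]
    refine ⟨by omega, Or.inr (Or.inl ?_)⟩
    omega
  obtain ⟨k, hkS, hmax⟩ : ∃ k ∈ S, ∀ l ∈ S, l ≤ k :=
    ⟨S.max' hS, S.max'_mem hS, fun l hl => S.le_max' l hl⟩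
  simp only [S, Finset.mem_filter, Finset.mem_Ioo] at hkS hmax
  obtain ⟨⟨hik, hkj⟩, hJ⟩ := hkS
  refine ⟨k, hik, hkj, hJ, ?_⟩
  by_cases hk1 : j = k + 1
  · exact Or.inr (Or.inl ⟨by omega, hk1, hb.2⟩)
  left
  refine hT.maximal (k, j) ⟨by simp; omega, by simp; omega, by simpa using hb.2, by simp; omega⟩ ?_
  rintro ⟨a, b⟩ hq hcr
  have hdq := hT.diagonal _ hq
  unfold IsDiagonal at hdq
  simp only at hdq
  -- no crossing with `(i, j)` and with `(i, k)`
  have h1 : ∀ p : ℕ × ℕ, p ∈ T → ¬ Cross p (a, b) := fun p hp => hT.noncrossing p hp _ hq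
  unfold Cross at hcr h1
  simp only at hcr h1
  have hij' : ¬ ((i < a ∧ a < j ∧ j < b) ∨ (a < i ∧ i < b ∧ b < j)) := by
    rcases h with h | h | h
    · exact h1 (i, j) h
    · omega
    · omega
  have hik' : ¬ ((i < a ∧ a < k ∧ k < b) ∨ (a < i ∧ i < b ∧ b < k)) := by
    rcases hJ with h | h | h
    · exact h1 (i, k) h
    · omega
    · omega
  rcases hcr with hcr | hcr
  · omega
  · -- `a < k < b < j`
    by_cases hai : a = i
    · subst hai
      have := hmax b ⟨⟨by omega, by omega⟩, Or.inl hq⟩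
      omega
    · omega

theorem tri_complete {N : ℕ} {T : Finset (ℕ × ℕ)} (hT : IsTriangulation N T)
    (hc : Colorful N T) : ∀ (n i j : ℕ), j ≤ i + n → i < j → Joined N T i j →
    ∃ l ∈ tri n i j, ∀ p : ℕ × ℕ, p ∈ l ↔ (p ∈ T ∧ i ≤ p.1 ∧ p.2 ≤ j ∧ p ≠ (i, j)) := by
  intro n
  induction n with
  | zero => intro i j h1 h2; omega
  | succ n ih =>
    intro i j hn hij hJ
    by_cases hj : j ≤ i + 1
    · refine ⟨[], by simp [tri, hj], ?_⟩
      rintro ⟨a, b⟩
      simp only [List.not_mem_nil, false_iff, not_and, ne_eq, Prod.mk.injEq]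
      intro hp h1 h2
      have := hT.diagonal _ hp
      unfold IsDiagonal at this
      simp only at this
      omega
    · obtain ⟨k, hik, hkj, hJ1, hJ2⟩ := exists_apex hT (by omega) hJ
      obtain ⟨x, hx, hx'⟩ := ih i k (by omega) hik hJ1
      obtain ⟨y, hy, hy'⟩ := ih k j (by omega) hkj hJ2
      have hcol := hc i k j hik hkj hJ1 hJ2 hJ
      refine ⟨dg i k ++ dg k j ++ x ++ y, ?_, ?_⟩
      · rw [tri, if_neg hj, List.mem_flatMap]
        refine ⟨k - i - 1, by rw [List.mem_range]; omega, ?_⟩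
        have hk : i + 1 + (k - i - 1) = k := by omega
        rw [hk, if_pos hcol, List.mem_flatMap]
        refine ⟨x, hx, ?_⟩
        rw [List.mem_map]
        exact ⟨y, hy, rfl⟩
      · have hdg : ∀ (a b : ℕ), i ≤ a → b ≤ j → a < b → Joined N T a b → (a, b) ≠ (i, j) →
            ∀ p : ℕ × ℕ, p ∈ dg a b ↔ p ∈ T ∧ p = (a, b) := by
          intro a b _ _ hab hJab hne p
          unfold dg
          split_ifs with h
          · simp only [List.not_mem_nil, false_iff, not_and]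
            rintro hp rfl
            have := hT.diagonal _ hp
            unfold IsDiagonal at this
            simp only at this
            omega
          · simp only [List.mem_singleton]
            refine ⟨?_, fun h => h.2⟩
            rintro rfl
            refine ⟨?_, rfl⟩
            have hb := hJ.lt_bounds hT
            rcases hJab with h' | h' | h'
            · exact h'
            · omega
            · exfalso
              apply hne
              simp only [Prod.mk.injEq]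
              omega
        have e1 := hdg i k le_rfl hkj.le hik hJ1 (by simp; omega)
        have e2 := hdg k j hik.le le_rfl hkj hJ2 (by simp; omega)
        rintro ⟨a, b⟩
        simp only [List.mem_append, e1, e2, hx', hy', Prod.mk.injEq, ne_eq]
        constructor
        · rintro (((h | h) | h) | h)
          · refine ⟨h.1, by omega, by omega, by omega⟩
          · refine ⟨h.1, by omega, by omega, by omega⟩
          · refine ⟨h.1, by omega, by omega, by omega⟩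
          · refine ⟨h.1, by omega, by omega, by omega⟩
        · rintro ⟨hp, h1, h2, h3⟩
          -- `(a, b)` does not cross `(i, k)` and `(k, j)`
          have hd := hT.diagonal _ hp
          unfold IsDiagonal at hd
          simp only at hd
          have hn1 : ¬ (a < k ∧ k < b) := by
            rintro ⟨hak, hkb⟩
            by_cases hai : a = i
            · have hbj : b < j := by omega
              rcases hJ2 with h' | h' | h'
              · apply hT.noncrossing _ hp _ h'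
                left
                simp only
                omega
              · omega
              · omega
            · rcases hJ1 with h' | h' | h'
              · apply hT.noncrossing _ hp _ h'
                right
                simp only
                omega
              · omega
              · omega
          by_cases hkb : b ≤ k
          · by_cases heq : a = i ∧ b = k
            · exact Or.inl (Or.inl (Or.inl ⟨hp, heq⟩))
            · exact Or.inl (Or.inr ⟨hp, h1, hkb, heq⟩)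
          · have hka : k ≤ a := by omega
            by_cases heq : a = k ∧ b = j
            · exact Or.inl (Or.inl (Or.inr ⟨hp, heq⟩))
            · exact Or.inr ⟨hp, hka, h2, heq⟩

/-! ## Checks by computation for `N = 14` -/

def mem (p : ℕ × ℕ) (l : List (ℕ × ℕ)) : Bool := l.any fun q => q.1 == p.1 && q.2 == p.2

theorem mem_iff (p : ℕ × ℕ) (l : List (ℕ × ℕ)) : mem p l = true ↔ p ∈ l := by
  unfold mem
  rw [List.any_eq_true]
  constructor
  · rintro ⟨q, hq, h⟩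
    simp only [Bool.and_eq_true, beq_iff_eq] at h
    have : q = p := Prod.ext h.1 h.2
    rwa [← this]
  · intro h
    exact ⟨p, h, by simp⟩

def crossb (p q : ℕ × ℕ) : Bool :=
  (Nat.blt p.1 q.1 && (Nat.blt q.1 p.2 && Nat.blt p.2 q.2)) ||
    (Nat.blt q.1 p.1 && (Nat.blt p.1 q.2 && Nat.blt q.2 p.2))

theorem crossb_iff (p q : ℕ × ℕ) : crossb p q = true ↔ Cross p q := by
  unfold crossb Cross
  simp only [Bool.or_eq_true, Bool.and_eq_true, Nat.blt_eq]

def diagb (N : ℕ) (p : ℕ × ℕ) : Bool :=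
  Nat.ble 1 p.1 && (Nat.blt (p.1 + 1) p.2 && (Nat.ble p.2 N && !(p.1 == 1 && p.2 == N)))

theorem diagb_iff (N : ℕ) (p : ℕ × ℕ) : diagb N p = true ↔ IsDiagonal N p := by
  unfold diagb IsDiagonal
  simp only [Bool.and_eq_true, Nat.blt_eq, Nat.ble_eq, Bool.not_eq_true',
    Bool.and_eq_false_iff, beq_eq_false_iff_ne, ne_eq]
  tauto

def joinb (N : ℕ) (l : List (ℕ × ℕ)) (i j : ℕ) : Bool :=
  mem (i, j) l || ((Nat.ble 1 i && (j == i + 1 && Nat.ble j N)) || (i == 1 && j == N))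

theorem joinb_iff (N : ℕ) (l : List (ℕ × ℕ)) (i j : ℕ) :
    joinb N l i j = true ↔ Joined N l.toFinset i j := by
  unfold joinb Joined
  simp only [Bool.or_eq_true, mem_iff, Bool.and_eq_true, Nat.ble_eq, beq_iff_eq,
    List.mem_toFinset]

/-- all pairs `(i, j)` with `i, j ≤ N` -/
def pairs (N : ℕ) : List (ℕ × ℕ) :=
  (List.range (N + 1)).flatMap fun i => (List.range (N + 1)).map fun j => (i, j)

theorem mem_pairs {N : ℕ} {p : ℕ × ℕ} (h1 : p.1 ≤ N) (h2 : p.2 ≤ N) : p ∈ pairs N := by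
  unfold pairs
  simp only [List.mem_flatMap, List.mem_range, List.mem_map]
  exact ⟨p.1, by omega, p.2, by omega, rfl⟩

def check (N : ℕ) (l : List (ℕ × ℕ)) : Bool :=
  (l.all fun p => diagb N p) && ((l.all fun p => l.all fun q => !crossb p q) &&
    (((pairs N).all fun p => !diagb N p || (mem p l || l.any fun q => crossb p q)) &&
      ((pairs N).all fun p => !Nat.blt p.1 p.2 || (!joinb N l p.1 p.2 ||
        (List.range (N + 1)).all fun c => !Nat.blt p.2 c || (!joinb N l p.2 c ||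
          (!joinb N l p.1 c || (!(p.1 % 3 == p.2 % 3) && (!(p.2 % 3 == c % 3) &&
            !(p.1 % 3 == c % 3)))))))))

theorem check_sound {N : ℕ} {l : List (ℕ × ℕ)} (h : check N l = true) :
    IsTriangulation N l.toFinset ∧ Colorful N l.toFinset := by
  unfold check at h
  simp only [Bool.and_eq_true, List.all_eq_true] at h
  obtain ⟨h1, h2, h3, h4⟩ := h
  have hd : IsTriangulation N l.toFinset := by
    refine ⟨fun p hp => ?_, fun p hp q hq => ?_, fun p hp hall => ?_⟩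
    · exact (diagb_iff N p).1 (h1 p (List.mem_toFinset.1 hp))
    · have := h2 p (List.mem_toFinset.1 hp) q (List.mem_toFinset.1 hq)
      rw [← crossb_iff]
      simpa using this
    · have hp' := hp
      unfold IsDiagonal at hp'
      have := h3 p (mem_pairs (by omega) (by omega))
      simp only [Bool.or_eq_true, Bool.not_eq_true', List.any_eq_true, mem_iff] at this
      rcases this with h | h | ⟨q, hq, h⟩
      · have := (diagb_iff N p).2 hp
        rw [h] at this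
        exact absurd this (by simp)
      · exact List.mem_toFinset.2 h
      · exact absurd ((crossb_iff p q).1 h) (hall q (List.mem_toFinset.2 hq))
  refine ⟨hd, ?_⟩
  intro a b c hab hbc hJab hJbc hJac
  have hN := (hJac.lt_bounds hd).2
  have h5 := h4 (a, b) (mem_pairs (by simp; omega) (by simp; omega))
  simp only [Bool.or_eq_true, Bool.not_eq_true'] at h5
  rcases h5 with h5 | h5 | h5
  · have : Nat.blt a b = true := by simpa using hab
    rw [h5] at this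
    exact absurd this (by simp)
  · rw [(joinb_iff N l a b).2 hJab] at h5
    exact absurd h5 (by simp)
  rw [List.all_eq_true] at h5
  have h6 := h5 c (List.mem_range.2 (by omega))
  simp only [Bool.or_eq_true, Bool.not_eq_true'] at h6
  rcases h6 with h6 | h6 | h6 | h6
  · have : Nat.blt b c = true := by simpa using hbc
    rw [h6] at this
    exact absurd this (by simp)
  · rw [(joinb_iff N l b c).2 hJbc] at h6
    exact absurd h6 (by simp)
  · rw [(joinb_iff N l a c).2 hJac] at h6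
    exact absurd h6 (by simp)
  · simpa using h6

/-- the list `l'` is obtained from `l` by a twist from `ace` to `bdf` -/
def edgeb (N : ℕ) (l l' : List (ℕ × ℕ)) (a b c d e f : ℕ) : Bool :=
  (Nat.blt a b && (Nat.blt b c && (Nat.blt c d && (Nat.blt d e && Nat.blt e f)))) &&
  ((joinb N l a b && (joinb N l b c && (joinb N l c d && (joinb N l d e &&
    (joinb N l e f && joinb N l a f))))) &&
  ((mem (a, c) l && (mem (c, e) l && mem (a, e) l)) &&
  ((l.all fun p => mem p [(a, c), (c, e), (a, e)] || mem p l') &&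
  ((l'.all fun p => (mem p l && !mem p [(a, c), (c, e), (a, e)]) ||
      mem p [(b, d), (d, f), (b, f)]) &&
    (mem (b, d) l' && (mem (d, f) l' && mem (b, f) l'))))))

theorem edgeb_sound {N : ℕ} {l l' : List (ℕ × ℕ)} {a b c d e f : ℕ}
    (h : edgeb N l l' a b c d e f = true) : Twist N l.toFinset l'.toFinset := by
  unfold edgeb at h
  simp only [Bool.and_eq_true, Nat.blt_eq, List.all_eq_true, mem_iff, joinb_iff,
    Bool.or_eq_true, Bool.not_eq_true'] at h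
  obtain ⟨h1, h2, h3, h4, h5, h6⟩ := h
  have hmf : ∀ (p : ℕ × ℕ) (m : List (ℕ × ℕ)), mem p m = false ↔ p ∉ m := by
    intro p m
    rw [← mem_iff]
    simp
  refine ⟨a, b, c, d, e, f, ⟨h1.1, h1.2.1, h1.2.2.1, h1.2.2.2.1, h1.2.2.2.2⟩,
    ⟨h2.1, h2.2.1, h2.2.2.1, h2.2.2.2.1, h2.2.2.2.2.1, h2.2.2.2.2.2⟩, Or.inl ⟨?_, ?_⟩⟩
  · intro p hp
    simp only [Finset.mem_insert, Finset.mem_singleton] at hp
    rw [List.mem_toFinset]
    rcases hp with rfl | rfl | rfl
    · exact h3.1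
    · exact h3.2.1
    · exact h3.2.2
  · ext p
    simp only [List.mem_toFinset, Finset.mem_union, Finset.mem_sdiff, Finset.mem_insert,
      Finset.mem_singleton]
    constructor
    · intro hp
      rcases h5 p hp with h | h
      · left
        refine ⟨h.1, ?_⟩
        have := (hmf _ _).1 h.2
        simpa using this
      · right
        simpa using h
    · rintro (h | h)
      · rcases h4 p h.1 with h' | h'
        · exact absurd (by simpa using h') h.2
        · exact h'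
      · rcases h with rfl | rfl | rfl
        · exact h6.1
        · exact h6.2.1
        · exact h6.2.2

def tab : List (List (ℕ × ℕ)) := [
  [(1, 3), (1, 5), (1, 6), (1, 8), (1, 9), (1, 11), (1, 12), (3, 5), (6, 8), (9, 11), (12, 14)],
  [(1, 6), (1, 8), (1, 9), (1, 11), (1, 12), (2, 4), (2, 6), (4, 6), (6, 8), (9, 11), (12, 14)],
  [(1, 3), (1, 5), (1, 9), (1, 11), (1, 12), (3, 5), (5, 7), (5, 9), (7, 9), (9, 11), (12, 14)],
  [(1, 3), (1, 5), (1, 6), (1, 8), (1, 12), (3, 5), (6, 8), (8, 10), (8, 12), (10, 12), (12, 14)],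
  [(1, 9), (1, 11), (1, 12), (2, 4), (2, 6), (2, 7), (2, 9), (4, 6), (7, 9), (9, 11), (12, 14)],
  [(1, 6), (1, 8), (1, 12), (2, 4), (2, 6), (4, 6), (6, 8), (8, 10), (8, 12), (10, 12), (12, 14)],
  [(1, 9), (1, 11), (1, 12), (2, 4), (2, 9), (4, 9), (5, 7), (5, 9), (7, 9), (9, 11), (12, 14)],
  [(1, 3), (1, 11), (1, 12), (3, 5), (3, 7), (3, 11), (5, 7), (7, 9), (7, 11), (9, 11), (12, 14)],
  [(1, 3), (1, 5), (1, 12), (3, 5), (5, 7), (5, 9), (5, 10), (5, 12), (7, 9), (10, 12), (12, 14)],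
  [(1, 3), (1, 5), (1, 12), (3, 5), (5, 7), (5, 12), (7, 12), (8, 10), (8, 12), (10, 12), (12, 14)],
  [(1, 3), (1, 5), (1, 6), (3, 5), (6, 8), (6, 10), (6, 14), (8, 10), (10, 12), (10, 14), (12, 14)],
  [(1, 12), (2, 4), (2, 6), (2, 7), (2, 9), (2, 10), (2, 12), (4, 6), (7, 9), (10, 12), (12, 14)],
  [(1, 9), (1, 11), (1, 12), (2, 7), (2, 9), (3, 5), (3, 7), (5, 7), (7, 9), (9, 11), (12, 14)],
  [(1, 12), (2, 4), (2, 6), (2, 7), (2, 12), (4, 6), (7, 12), (8, 10), (8, 12), (10, 12), (12, 14)],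
  [(1, 6), (2, 4), (2, 6), (4, 6), (6, 8), (6, 10), (6, 14), (8, 10), (10, 12), (10, 14), (12, 14)],
  [(1, 12), (2, 4), (2, 9), (2, 10), (2, 12), (4, 9), (5, 7), (5, 9), (7, 9), (10, 12), (12, 14)],
  [(1, 9), (1, 11), (1, 12), (2, 4), (2, 9), (4, 6), (4, 8), (4, 9), (6, 8), (9, 11), (12, 14)],
  [(1, 12), (2, 7), (2, 12), (3, 5), (3, 7), (5, 7), (7, 9), (7, 11), (7, 12), (9, 11), (12, 14)],
  [(1, 3), (1, 11), (1, 12), (3, 11), (4, 6), (4, 11), (6, 11), (7, 9), (7, 11), (9, 11), (12, 14)],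
  [(1, 3), (1, 11), (1, 12), (3, 5), (3, 7), (3, 8), (3, 10), (3, 11), (5, 7), (8, 10), (12, 14)],
  [(1, 12), (2, 4), (2, 12), (4, 12), (5, 7), (5, 9), (5, 10), (5, 12), (7, 9), (10, 12), (12, 14)],
  [(1, 3), (3, 5), (3, 10), (3, 14), (5, 7), (5, 9), (5, 10), (7, 9), (10, 12), (10, 14), (12, 14)],
  [(1, 3), (1, 5), (1, 12), (3, 5), (5, 10), (5, 12), (6, 8), (6, 10), (8, 10), (10, 12), (12, 14)],
  [(1, 12), (2, 4), (2, 12), (4, 12), (5, 7), (5, 12), (7, 12), (8, 10), (8, 12), (10, 12), (12, 14)],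
  [(1, 3), (3, 5), (3, 7), (3, 14), (5, 7), (7, 12), (7, 14), (8, 10), (8, 12), (10, 12), (12, 14)],
  [(1, 3), (1, 5), (1, 12), (3, 5), (5, 7), (5, 12), (7, 9), (7, 11), (7, 12), (9, 11), (12, 14)],
  [(1, 3), (1, 5), (1, 6), (3, 5), (6, 14), (7, 9), (7, 14), (9, 14), (10, 12), (10, 14), (12, 14)],
  [(1, 3), (1, 5), (1, 6), (3, 5), (6, 8), (6, 10), (6, 11), (6, 13), (6, 14), (8, 10), (11, 13)],
  [(1, 12), (2, 7), (2, 9), (2, 10), (2, 12), (3, 5), (3, 7), (5, 7), (7, 9), (10, 12), (12, 14)],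
  [(1, 12), (2, 4), (2, 6), (2, 10), (2, 12), (4, 6), (6, 8), (6, 10), (8, 10), (10, 12), (12, 14)],
  [(1, 3), (1, 8), (1, 9), (1, 11), (1, 12), (3, 5), (3, 7), (3, 8), (5, 7), (9, 11), (12, 14)],
  [(1, 12), (2, 7), (2, 12), (3, 5), (3, 7), (5, 7), (7, 12), (8, 10), (8, 12), (10, 12), (12, 14)],
  [(1, 12), (2, 4), (2, 6), (2, 7), (2, 12), (4, 6), (7, 9), (7, 11), (7, 12), (9, 11), (12, 14)],
  [(1, 6), (2, 4), (2, 6), (4, 6), (6, 14), (7, 9), (7, 14), (9, 14), (10, 12), (10, 14), (12, 14)],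
  [(1, 6), (2, 4), (2, 6), (4, 6), (6, 8), (6, 10), (6, 11), (6, 13), (6, 14), (8, 10), (11, 13)],
  [(1, 12), (2, 10), (2, 12), (3, 5), (3, 10), (5, 7), (5, 9), (5, 10), (7, 9), (10, 12), (12, 14)],
  [(1, 12), (2, 4), (2, 9), (2, 10), (2, 12), (4, 6), (4, 8), (4, 9), (6, 8), (10, 12), (12, 14)],
  [(1, 3), (1, 8), (1, 9), (1, 11), (1, 12), (3, 8), (4, 6), (4, 8), (6, 8), (9, 11), (12, 14)],
  [(1, 12), (2, 4), (2, 12), (4, 6), (4, 11), (4, 12), (6, 11), (7, 9), (7, 11), (9, 11), (12, 14)],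
  [(1, 3), (1, 11), (1, 12), (3, 11), (4, 6), (4, 11), (6, 8), (6, 10), (6, 11), (8, 10), (12, 14)],
  [(1, 12), (2, 10), (2, 12), (3, 5), (3, 7), (3, 8), (3, 10), (5, 7), (8, 10), (10, 12), (12, 14)],
  [(1, 3), (1, 11), (1, 12), (3, 8), (3, 10), (3, 11), (4, 6), (4, 8), (6, 8), (8, 10), (12, 14)],
  [(1, 12), (2, 4), (2, 12), (4, 12), (5, 10), (5, 12), (6, 8), (6, 10), (8, 10), (10, 12), (12, 14)],
  [(1, 12), (2, 4), (2, 12), (4, 9), (4, 11), (4, 12), (5, 7), (5, 9), (7, 9), (9, 11), (12, 14)],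
  [(1, 3), (3, 14), (4, 9), (4, 14), (5, 7), (5, 9), (7, 9), (9, 14), (10, 12), (10, 14), (12, 14)],
  [(1, 3), (3, 5), (3, 10), (3, 14), (5, 10), (6, 8), (6, 10), (8, 10), (10, 12), (10, 14), (12, 14)],
  [(1, 3), (3, 5), (3, 10), (3, 11), (3, 13), (3, 14), (5, 7), (5, 9), (5, 10), (7, 9), (11, 13)],
  [(1, 3), (1, 5), (1, 6), (1, 11), (1, 12), (3, 5), (6, 8), (6, 10), (6, 11), (8, 10), (12, 14)],
  [(1, 12), (2, 4), (2, 12), (4, 6), (4, 8), (4, 12), (6, 8), (8, 10), (8, 12), (10, 12), (12, 14)],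
  [(1, 12), (2, 4), (2, 12), (4, 12), (5, 7), (5, 12), (7, 9), (7, 11), (7, 12), (9, 11), (12, 14)],
  [(1, 3), (3, 14), (4, 6), (4, 14), (6, 14), (7, 12), (7, 14), (8, 10), (8, 12), (10, 12), (12, 14)],
  [(1, 3), (3, 5), (3, 7), (3, 8), (3, 13), (3, 14), (5, 7), (8, 10), (8, 12), (8, 13), (10, 12)],
  [(1, 3), (3, 5), (3, 7), (3, 14), (5, 7), (7, 9), (7, 11), (7, 12), (7, 14), (9, 11), (12, 14)],
  [(1, 3), (1, 5), (1, 6), (1, 11), (1, 12), (3, 5), (6, 11), (7, 9), (7, 11), (9, 11), (12, 14)],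
  [(1, 3), (1, 5), (1, 6), (3, 5), (6, 14), (7, 9), (7, 14), (9, 11), (9, 13), (9, 14), (11, 13)],
  [(1, 3), (1, 5), (1, 6), (3, 5), (6, 11), (6, 13), (6, 14), (7, 9), (7, 11), (9, 11), (11, 13)],
  [(1, 12), (2, 10), (2, 12), (3, 5), (3, 10), (5, 10), (6, 8), (6, 10), (8, 10), (10, 12), (12, 14)],
  [(1, 6), (1, 11), (1, 12), (2, 4), (2, 6), (4, 6), (6, 8), (6, 10), (6, 11), (8, 10), (12, 14)],
  [(1, 3), (1, 8), (1, 12), (3, 5), (3, 7), (3, 8), (5, 7), (8, 10), (8, 12), (10, 12), (12, 14)],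
  [(1, 6), (1, 11), (1, 12), (2, 4), (2, 6), (4, 6), (6, 11), (7, 9), (7, 11), (9, 11), (12, 14)],
  [(1, 6), (2, 4), (2, 6), (4, 6), (6, 14), (7, 9), (7, 14), (9, 11), (9, 13), (9, 14), (11, 13)],
  [(1, 6), (2, 4), (2, 6), (4, 6), (6, 11), (6, 13), (6, 14), (7, 9), (7, 11), (9, 11), (11, 13)],
  [(1, 3), (1, 11), (1, 12), (3, 5), (3, 10), (3, 11), (5, 7), (5, 9), (5, 10), (7, 9), (12, 14)],
  [(1, 12), (2, 10), (2, 12), (3, 8), (3, 10), (4, 6), (4, 8), (6, 8), (8, 10), (10, 12), (12, 14)],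
  [(1, 3), (1, 8), (1, 12), (3, 8), (4, 6), (4, 8), (6, 8), (8, 10), (8, 12), (10, 12), (12, 14)],
  [(1, 12), (2, 4), (2, 12), (4, 6), (4, 11), (4, 12), (6, 8), (6, 10), (6, 11), (8, 10), (12, 14)],
  [(1, 3), (1, 11), (1, 12), (3, 5), (3, 10), (3, 11), (5, 10), (6, 8), (6, 10), (8, 10), (12, 14)],
  [(1, 3), (1, 11), (1, 12), (3, 11), (4, 6), (4, 8), (4, 9), (4, 11), (6, 8), (9, 11), (12, 14)],
  [(1, 3), (1, 11), (1, 12), (3, 11), (4, 9), (4, 11), (5, 7), (5, 9), (7, 9), (9, 11), (12, 14)],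
  [(1, 12), (2, 4), (2, 12), (4, 6), (4, 8), (4, 9), (4, 11), (4, 12), (6, 8), (9, 11), (12, 14)],
  [(1, 3), (3, 14), (4, 6), (4, 8), (4, 9), (4, 14), (6, 8), (9, 14), (10, 12), (10, 14), (12, 14)],
  [(1, 3), (3, 14), (4, 9), (4, 14), (5, 7), (5, 9), (7, 9), (9, 11), (9, 13), (9, 14), (11, 13)],
  [(1, 3), (3, 14), (4, 6), (4, 14), (6, 8), (6, 10), (6, 14), (8, 10), (10, 12), (10, 14), (12, 14)],
  [(1, 3), (3, 5), (3, 10), (3, 11), (3, 13), (3, 14), (5, 10), (6, 8), (6, 10), (8, 10), (11, 13)],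
  [(1, 3), (3, 11), (3, 13), (3, 14), (4, 9), (4, 11), (5, 7), (5, 9), (7, 9), (9, 11), (11, 13)],
  [(1, 3), (3, 14), (4, 6), (4, 14), (6, 8), (6, 13), (6, 14), (8, 10), (8, 12), (8, 13), (10, 12)],
  [(1, 3), (3, 14), (4, 6), (4, 14), (6, 14), (7, 9), (7, 11), (7, 12), (7, 14), (9, 11), (12, 14)],
  [(1, 3), (3, 8), (3, 13), (3, 14), (4, 6), (4, 8), (6, 8), (8, 10), (8, 12), (8, 13), (10, 12)],
  [(1, 3), (3, 5), (3, 7), (3, 8), (3, 13), (3, 14), (5, 7), (8, 13), (9, 11), (9, 13), (11, 13)],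
  [(1, 3), (3, 5), (3, 7), (3, 11), (3, 13), (3, 14), (5, 7), (7, 9), (7, 11), (9, 11), (11, 13)],
  [(1, 3), (1, 5), (1, 6), (3, 5), (6, 8), (6, 13), (6, 14), (8, 13), (9, 11), (9, 13), (11, 13)],
  [(1, 3), (1, 5), (1, 6), (3, 5), (6, 14), (7, 9), (7, 11), (7, 12), (7, 14), (9, 11), (12, 14)],
  [(1, 3), (3, 5), (3, 7), (3, 8), (3, 10), (3, 14), (5, 7), (8, 10), (10, 12), (10, 14), (12, 14)],
  [(1, 6), (2, 4), (2, 6), (4, 6), (6, 8), (6, 13), (6, 14), (8, 13), (9, 11), (9, 13), (11, 13)],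
  [(1, 6), (2, 4), (2, 6), (4, 6), (6, 14), (7, 9), (7, 11), (7, 12), (7, 14), (9, 11), (12, 14)],
  [(1, 3), (3, 8), (3, 10), (3, 14), (4, 6), (4, 8), (6, 8), (8, 10), (10, 12), (10, 14), (12, 14)],
  [(1, 3), (3, 14), (4, 6), (4, 8), (4, 9), (4, 14), (6, 8), (9, 11), (9, 13), (9, 14), (11, 13)],
  [(1, 3), (3, 5), (3, 13), (3, 14), (5, 7), (5, 9), (5, 13), (7, 9), (9, 11), (9, 13), (11, 13)],
  [(1, 3), (3, 14), (4, 6), (4, 14), (6, 14), (7, 9), (7, 14), (9, 14), (10, 12), (10, 14), (12, 14)],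
  [(1, 3), (3, 14), (4, 6), (4, 8), (4, 12), (4, 14), (6, 8), (8, 10), (8, 12), (10, 12), (12, 14)],
  [(1, 3), (3, 14), (4, 6), (4, 14), (6, 8), (6, 10), (6, 11), (6, 13), (6, 14), (8, 10), (11, 13)],
  [(1, 3), (3, 11), (3, 13), (3, 14), (4, 6), (4, 11), (6, 8), (6, 10), (6, 11), (8, 10), (11, 13)],
  [(1, 3), (3, 14), (4, 9), (4, 11), (4, 12), (4, 14), (5, 7), (5, 9), (7, 9), (9, 11), (12, 14)],
  [(1, 3), (3, 11), (3, 13), (3, 14), (4, 6), (4, 8), (4, 9), (4, 11), (6, 8), (9, 11), (11, 13)],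
  [(1, 3), (3, 5), (3, 13), (3, 14), (5, 13), (6, 8), (6, 13), (8, 10), (8, 12), (8, 13), (10, 12)],
  [(1, 3), (3, 14), (4, 6), (4, 14), (6, 8), (6, 13), (6, 14), (8, 13), (9, 11), (9, 13), (11, 13)],
  [(1, 3), (3, 14), (4, 6), (4, 14), (6, 11), (6, 13), (6, 14), (7, 9), (7, 11), (9, 11), (11, 13)],
  [(1, 3), (3, 8), (3, 13), (3, 14), (4, 6), (4, 8), (6, 8), (8, 13), (9, 11), (9, 13), (11, 13)],
  [(1, 3), (3, 5), (3, 7), (3, 14), (5, 7), (7, 9), (7, 14), (9, 11), (9, 13), (9, 14), (11, 13)],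
  [(1, 3), (3, 11), (3, 13), (3, 14), (4, 6), (4, 11), (6, 11), (7, 9), (7, 11), (9, 11), (11, 13)],
  [(1, 3), (3, 5), (3, 7), (3, 8), (3, 10), (3, 11), (3, 13), (3, 14), (5, 7), (8, 10), (11, 13)],
  [(1, 3), (1, 5), (1, 6), (3, 5), (6, 8), (6, 13), (6, 14), (8, 10), (8, 12), (8, 13), (10, 12)],
  [(1, 3), (1, 5), (1, 6), (3, 5), (6, 14), (7, 12), (7, 14), (8, 10), (8, 12), (10, 12), (12, 14)],
  [(1, 3), (3, 5), (3, 7), (3, 14), (5, 7), (7, 9), (7, 14), (9, 14), (10, 12), (10, 14), (12, 14)],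
  [(1, 6), (2, 4), (2, 6), (4, 6), (6, 8), (6, 13), (6, 14), (8, 10), (8, 12), (8, 13), (10, 12)],
  [(1, 6), (2, 4), (2, 6), (4, 6), (6, 14), (7, 12), (7, 14), (8, 10), (8, 12), (10, 12), (12, 14)],
  [(1, 3), (3, 8), (3, 10), (3, 11), (3, 13), (3, 14), (4, 6), (4, 8), (6, 8), (8, 10), (11, 13)],
  [(1, 3), (3, 5), (3, 13), (3, 14), (5, 13), (6, 8), (6, 13), (8, 13), (9, 11), (9, 13), (11, 13)],
  [(1, 3), (3, 5), (3, 13), (3, 14), (5, 7), (5, 9), (5, 10), (5, 12), (5, 13), (7, 9), (10, 12)],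
  [(1, 3), (3, 14), (4, 6), (4, 14), (6, 14), (7, 9), (7, 14), (9, 11), (9, 13), (9, 14), (11, 13)],
  [(1, 3), (3, 14), (4, 12), (4, 14), (5, 7), (5, 12), (7, 12), (8, 10), (8, 12), (10, 12), (12, 14)],
  [(1, 3), (3, 14), (4, 6), (4, 8), (4, 9), (4, 11), (4, 12), (4, 14), (6, 8), (9, 11), (12, 14)],
  [(1, 3), (3, 5), (3, 13), (3, 14), (5, 13), (6, 8), (6, 10), (6, 11), (6, 13), (8, 10), (11, 13)],
  [(1, 3), (3, 14), (4, 6), (4, 11), (4, 12), (4, 14), (6, 8), (6, 10), (6, 11), (8, 10), (12, 14)],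
  [(1, 3), (3, 14), (4, 12), (4, 14), (5, 7), (5, 9), (5, 10), (5, 12), (7, 9), (10, 12), (12, 14)],
  [(1, 3), (3, 5), (3, 13), (3, 14), (5, 7), (5, 12), (5, 13), (7, 12), (8, 10), (8, 12), (10, 12)],
  [(1, 3), (3, 5), (3, 13), (3, 14), (5, 13), (6, 11), (6, 13), (7, 9), (7, 11), (9, 11), (11, 13)],
  [(1, 3), (1, 5), (1, 9), (3, 5), (5, 7), (5, 9), (7, 9), (9, 11), (9, 13), (9, 14), (11, 13)],
  [(1, 3), (3, 14), (4, 6), (4, 11), (4, 12), (4, 14), (6, 11), (7, 9), (7, 11), (9, 11), (12, 14)],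
  [(1, 3), (1, 5), (1, 9), (3, 5), (5, 7), (5, 9), (7, 9), (9, 14), (10, 12), (10, 14), (12, 14)],
  [(1, 3), (3, 5), (3, 13), (3, 14), (5, 10), (5, 12), (5, 13), (6, 8), (6, 10), (8, 10), (10, 12)],
  [(1, 3), (3, 14), (4, 12), (4, 14), (5, 7), (5, 12), (7, 9), (7, 11), (7, 12), (9, 11), (12, 14)],
  [(1, 3), (3, 14), (4, 12), (4, 14), (5, 10), (5, 12), (6, 8), (6, 10), (8, 10), (10, 12), (12, 14)],
  [(1, 3), (3, 5), (3, 13), (3, 14), (5, 7), (5, 12), (5, 13), (7, 9), (7, 11), (7, 12), (9, 11)],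
  [(1, 9), (2, 4), (2, 9), (4, 9), (5, 7), (5, 9), (7, 9), (9, 11), (9, 13), (9, 14), (11, 13)],
  [(1, 3), (1, 5), (1, 6), (1, 8), (1, 9), (3, 5), (6, 8), (9, 11), (9, 13), (9, 14), (11, 13)],
  [(1, 9), (2, 4), (2, 9), (4, 9), (5, 7), (5, 9), (7, 9), (9, 14), (10, 12), (10, 14), (12, 14)],
  [(1, 3), (1, 5), (1, 6), (1, 8), (1, 9), (3, 5), (6, 8), (9, 14), (10, 12), (10, 14), (12, 14)],
  [(1, 9), (2, 4), (2, 9), (4, 6), (4, 8), (4, 9), (6, 8), (9, 11), (9, 13), (9, 14), (11, 13)],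
  [(1, 6), (1, 8), (1, 9), (2, 4), (2, 6), (4, 6), (6, 8), (9, 11), (9, 13), (9, 14), (11, 13)],
  [(1, 9), (2, 4), (2, 9), (4, 6), (4, 8), (4, 9), (6, 8), (9, 14), (10, 12), (10, 14), (12, 14)],
  [(1, 6), (1, 8), (1, 9), (2, 4), (2, 6), (4, 6), (6, 8), (9, 14), (10, 12), (10, 14), (12, 14)],
  [(1, 3), (1, 8), (1, 9), (3, 8), (4, 6), (4, 8), (6, 8), (9, 11), (9, 13), (9, 14), (11, 13)],
  [(1, 9), (2, 4), (2, 6), (2, 7), (2, 9), (4, 6), (7, 9), (9, 11), (9, 13), (9, 14), (11, 13)],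
  [(1, 3), (1, 8), (1, 9), (3, 8), (4, 6), (4, 8), (6, 8), (9, 14), (10, 12), (10, 14), (12, 14)],
  [(1, 9), (2, 4), (2, 6), (2, 7), (2, 9), (4, 6), (7, 9), (9, 14), (10, 12), (10, 14), (12, 14)],
  [(1, 3), (1, 8), (1, 9), (3, 5), (3, 7), (3, 8), (5, 7), (9, 11), (9, 13), (9, 14), (11, 13)],
  [(1, 9), (2, 7), (2, 9), (3, 5), (3, 7), (5, 7), (7, 9), (9, 11), (9, 13), (9, 14), (11, 13)],
  [(1, 3), (1, 8), (1, 9), (3, 5), (3, 7), (3, 8), (5, 7), (9, 14), (10, 12), (10, 14), (12, 14)],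
  [(1, 9), (2, 7), (2, 9), (3, 5), (3, 7), (5, 7), (7, 9), (9, 14), (10, 12), (10, 14), (12, 14)]]

def link : List (ℕ × Bool × ℕ × ℕ × ℕ × ℕ × ℕ × ℕ) := [
  (0, true, 1, 2, 3, 4, 5, 6),
  (0, true, 1, 5, 6, 7, 8, 9),
  (0, true, 1, 8, 9, 10, 11, 12),
  (1, true, 1, 2, 6, 7, 8, 9),
  (1, true, 1, 8, 9, 10, 11, 12),
  (2, true, 1, 2, 3, 4, 5, 9),
  (2, true, 1, 3, 5, 7, 9, 11),
  (2, true, 1, 5, 9, 10, 11, 12),
  (3, true, 1, 5, 6, 7, 8, 12),
  (3, true, 1, 6, 8, 10, 12, 14),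
  (4, true, 1, 2, 9, 10, 11, 12),
  (4, true, 2, 3, 4, 5, 6, 7),
  (5, true, 1, 2, 6, 7, 8, 12),
  (5, true, 1, 6, 8, 10, 12, 14),
  (6, true, 1, 2, 9, 10, 11, 12),
  (6, false, 4, 5, 6, 7, 8, 9),
  (7, true, 1, 2, 3, 7, 11, 12),
  (7, true, 3, 4, 5, 6, 7, 11),
  (7, false, 3, 7, 8, 9, 10, 11),
  (8, true, 1, 2, 3, 4, 5, 12),
  (8, true, 1, 3, 5, 10, 12, 14),
  (8, true, 5, 6, 7, 8, 9, 10),
  (9, true, 1, 2, 3, 4, 5, 12),
  (9, true, 1, 3, 5, 7, 12, 14),
  (9, false, 7, 8, 9, 10, 11, 12),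
  (10, true, 6, 7, 8, 9, 10, 14),
  (10, false, 6, 10, 11, 12, 13, 14),
  (11, true, 2, 3, 4, 5, 6, 7),
  (11, true, 2, 6, 7, 8, 9, 10),
  (12, false, 1, 2, 3, 7, 8, 9),
  (13, true, 2, 3, 4, 5, 6, 7),
  (13, false, 7, 8, 9, 10, 11, 12),
  (14, true, 6, 7, 8, 9, 10, 14),
  (14, false, 6, 10, 11, 12, 13, 14),
  (15, true, 2, 3, 4, 5, 9, 10),
  (15, false, 4, 5, 6, 7, 8, 9),
  (16, false, 1, 2, 3, 4, 8, 9),
  (18, true, 1, 2, 3, 4, 11, 12),
  (18, false, 6, 7, 8, 9, 10, 11),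
  (19, true, 1, 2, 3, 10, 11, 12),
  (19, true, 3, 4, 5, 6, 7, 8),
  (20, true, 5, 6, 7, 8, 9, 10),
  (20, false, 4, 5, 9, 10, 11, 12),
  (21, true, 3, 4, 5, 9, 10, 14),
  (21, true, 5, 6, 7, 8, 9, 10),
  (21, false, 3, 10, 11, 12, 13, 14),
  (22, false, 1, 5, 6, 10, 11, 12),
  (23, false, 4, 5, 6, 7, 8, 12),
  (23, false, 7, 8, 9, 10, 11, 12),
  (24, true, 3, 4, 5, 6, 7, 14),
  (24, false, 3, 7, 8, 12, 13, 14),
  (24, false, 7, 8, 9, 10, 11, 12),
  (25, false, 1, 5, 6, 7, 11, 12),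
  (26, false, 9, 10, 11, 12, 13, 14),
  (27, true, 6, 7, 8, 9, 10, 11),
  (29, true, 2, 3, 4, 5, 6, 10),
  (29, false, 1, 2, 6, 10, 11, 12),
  (30, true, 1, 8, 9, 10, 11, 12),
  (32, false, 1, 2, 6, 7, 11, 12),
  (33, false, 9, 10, 11, 12, 13, 14),
  (34, true, 6, 7, 8, 9, 10, 11),
  (35, false, 1, 2, 3, 10, 11, 12),
  (36, true, 2, 3, 4, 8, 9, 10),
  (37, true, 1, 8, 9, 10, 11, 12),
  (38, false, 6, 7, 8, 9, 10, 11),
  (39, false, 3, 4, 5, 6, 10, 11),
  (41, true, 3, 4, 8, 9, 10, 11),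
  (43, false, 1, 2, 3, 4, 11, 12),
  (43, false, 4, 5, 6, 7, 8, 9),
  (44, false, 4, 5, 6, 7, 8, 9),
  (44, false, 9, 10, 11, 12, 13, 14),
  (45, true, 3, 4, 5, 6, 10, 14),
  (45, false, 3, 10, 11, 12, 13, 14),
  (46, true, 3, 4, 5, 9, 10, 11),
  (50, false, 6, 7, 8, 12, 13, 14),
  (50, false, 7, 8, 9, 10, 11, 12),
  (51, true, 3, 4, 5, 6, 7, 8),
  (51, true, 8, 9, 10, 11, 12, 13),
  (52, false, 3, 7, 11, 12, 13, 14),
  (54, false, 6, 7, 8, 9, 13, 14),
  (55, true, 6, 7, 11, 12, 13, 14),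
  (58, true, 1, 3, 8, 10, 12, 14),
  (60, false, 6, 7, 8, 9, 13, 14),
  (61, true, 6, 7, 11, 12, 13, 14),
  (64, true, 1, 3, 8, 10, 12, 14),
  (70, false, 9, 10, 11, 12, 13, 14),
  (71, false, 3, 4, 5, 9, 13, 14),
  (72, true, 6, 7, 8, 9, 10, 14),
  (72, false, 4, 6, 8, 10, 12, 14),
  (72, false, 6, 10, 11, 12, 13, 14),
  (73, true, 3, 4, 5, 6, 10, 11),
  (74, true, 3, 4, 11, 12, 13, 14),
  (74, false, 4, 5, 6, 7, 8, 9),
  (75, false, 3, 4, 5, 6, 13, 14),
  (75, true, 8, 9, 10, 11, 12, 13),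
  (76, false, 6, 7, 11, 12, 13, 14),
  (77, true, 8, 9, 10, 11, 12, 13),
  (78, true, 3, 7, 8, 9, 13, 14),
  (79, true, 3, 4, 5, 6, 7, 11),
  (79, false, 3, 7, 8, 9, 10, 11),
  (80, false, 8, 9, 10, 11, 12, 13),
  (81, true, 7, 8, 9, 10, 11, 12),
  (82, true, 3, 7, 8, 9, 10, 14),
  (83, false, 8, 9, 10, 11, 12, 13),
  (84, true, 7, 8, 9, 10, 11, 12),
  (85, false, 3, 10, 11, 12, 13, 14),
  (87, true, 5, 6, 7, 8, 9, 13),
  (87, false, 5, 9, 10, 11, 12, 13),
  (88, false, 9, 10, 11, 12, 13, 14),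
  (89, true, 4, 5, 6, 7, 8, 12),
  (89, false, 4, 8, 9, 10, 11, 12),
  (90, false, 3, 4, 5, 6, 13, 14),
  (91, true, 3, 4, 11, 12, 13, 14),
  (92, true, 4, 5, 9, 10, 11, 12),
  (94, false, 5, 6, 7, 8, 12, 13),
  (96, false, 3, 4, 5, 6, 13, 14),
  (98, false, 1, 3, 5, 7, 9, 14),
  (99, true, 3, 4, 11, 12, 13, 14),
  (103, false, 1, 3, 5, 7, 9, 14),
  (108, true, 5, 6, 7, 8, 9, 10),
  (110, false, 7, 8, 9, 10, 11, 12),
  (113, true, 4, 5, 6, 10, 11, 12),
  (115, false, 7, 8, 9, 10, 11, 12),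
  (117, true, 1, 2, 3, 4, 5, 9),
  (117, false, 1, 5, 6, 7, 8, 9),
  (119, true, 1, 2, 3, 4, 5, 9),
  (119, false, 1, 5, 6, 7, 8, 9),
  (124, false, 4, 5, 6, 7, 8, 9),
  (125, true, 1, 2, 3, 4, 5, 6),
  (126, false, 4, 5, 6, 7, 8, 9),
  (127, true, 1, 2, 3, 4, 5, 6),
  (128, false, 1, 2, 3, 4, 8, 9),
  (129, true, 1, 2, 6, 7, 8, 9),
  (130, false, 1, 2, 3, 4, 8, 9),
  (131, true, 1, 2, 6, 7, 8, 9),
  (132, false, 3, 4, 5, 6, 7, 8),
  (133, true, 2, 3, 4, 5, 6, 7),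
  (134, false, 3, 4, 5, 6, 7, 8),
  (135, true, 2, 3, 4, 5, 6, 7)]

def nth (k : ℕ) : List (ℕ × ℕ) := tab.getD k []

def linkb (k : ℕ) : Bool :=
  match link.getD k (0, true, 0, 0, 0, 0, 0, 0) with
  | (p, o, a, b, c, d, e, f) =>
    Nat.ble p k && (match o with
      | true => edgeb 14 (nth p) (nth (k + 1)) a b c d e f
      | false => edgeb 14 (nth (k + 1)) (nth p) a b c d e f)

theorem checks : ((List.range 140).all fun k => check 14 (nth k)) = true := by
  decide +kernel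

theorem links : ((List.range 139).all fun k => linkb k) = true := by
  decide +kernel

def findb (l : List (ℕ × ℕ)) : Bool :=
  (List.range 140).any fun k => (l.all fun p => mem p (nth k)) && ((nth k).all fun p => mem p l)

theorem finds : ((tri 13 1 14).all fun l => findb l) = true := by
  decide +kernel

/-- the vertex number `k` of the graph -/
def vert (k : ℕ) (hk : k < 140) : {T : Finset (ℕ × ℕ) // IsTriangulation 14 T ∧ Colorful 14 T} :=
  ⟨(nth k).toFinset, check_sound (List.all_eq_true.1 checks k (List.mem_range.2 hk))⟩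

theorem twist_ne {N : ℕ} {T T' : Finset (ℕ × ℕ)} (h : Twist N T T') (hT : IsTriangulation N T) :
    T ≠ T' := by
  rintro rfl
  obtain ⟨a, b, c, d, e, f, h1, h2, h3⟩ := h
  have key : (a, c) ∈ T → (b, d) ∈ T → False := by
    intro ha hb
    apply hT.noncrossing _ ha _ hb
    left
    simp only
    omega
  rcases h3 with ⟨h3, h4⟩ | ⟨h3, h4⟩
  · refine key (h3 (by simp)) ?_
    rw [h4]
    simp
  · refine key ?_ (h3 (by simp))
    rw [h4]
    simp

theorem reach (k : ℕ) : ∀ hk : k < 140, (twistGraph 14).Reachable (vert 0 (by omega)) (vert k hk) := by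
  induction k using Nat.strong_induction_on with
  | _ k ih =>
    intro hk
    rcases Nat.eq_zero_or_pos k with rfl | hpos
    · exact SimpleGraph.Reachable.refl _
    obtain ⟨k, rfl⟩ : ∃ j, k = j + 1 := ⟨k - 1, by omega⟩
    have h := List.all_eq_true.1 links k (List.mem_range.2 (by omega))
    unfold linkb at h
    split at h
    next p o a b c d e f heq =>
      rw [Bool.and_eq_true] at h
      obtain ⟨hp, h⟩ := h
      rw [Nat.ble_eq] at hp
      have h1 := ih p (by omega) (by omega)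
      refine h1.trans (SimpleGraph.Adj.reachable ?_)
      rw [twistGraph, SimpleGraph.fromRel_adj]
      cases o with
      | true =>
        have h2 : Twist 14 (vert p (by omega)).1 (vert (k + 1) hk).1 := edgeb_sound h
        exact ⟨fun h3 => twist_ne h2 (vert p (by omega)).2.1 (congrArg Subtype.val h3), Or.inl h2⟩
      | false =>
        have h2 : Twist 14 (vert (k + 1) hk).1 (vert p (by omega)).1 := edgeb_sound h
        exact ⟨fun h3 => twist_ne h2 (vert (k + 1) hk).2.1 (congrArg Subtype.val h3).symm,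
          Or.inr h2⟩

theorem all_vert (T : {T : Finset (ℕ × ℕ) // IsTriangulation 14 T ∧ Colorful 14 T}) :
    ∃ (k : ℕ) (hk : k < 140), T = vert k hk := by
  obtain ⟨T, hT, hc⟩ := T
  obtain ⟨l, hl, hl'⟩ := tri_complete hT hc 13 1 14 (by omega) (by omega) (Or.inr (Or.inr ⟨rfl, rfl⟩))
  have h := List.all_eq_true.1 finds l hl
  unfold findb at h
  rw [List.any_eq_true] at h
  obtain ⟨k, hk, h⟩ := h
  rw [List.mem_range] at hk
  simp only [Bool.and_eq_true, List.all_eq_true, mem_iff] at h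
  refine ⟨k, hk, Subtype.ext ?_⟩
  show T = (nth k).toFinset
  ext p
  rw [List.mem_toFinset]
  constructor
  · intro hp
    refine h.1 p ((hl' p).2 ⟨hp, ?_⟩)
    have := hT.diagonal p hp
    unfold IsDiagonal at this
    refine ⟨this.1, this.2.2.1, ?_⟩
    rintro rfl
    exact this.2.2.2 ⟨rfl, rfl⟩
  · intro hp
    exact ((hl' p).1 (h.2 p hp)).1

theorem connected_fourteen : (twistGraph 14).Connected := by
  have : Nonempty {T : Finset (ℕ × ℕ) // IsTriangulation 14 T ∧ Colorful 14 T} :=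
    ⟨vert 0 (by omega)⟩
  refine ⟨fun x y => ?_⟩
  obtain ⟨i, hi, rfl⟩ := all_vert x
  obtain ⟨j, hj, rfl⟩ := all_vert y
  exact (reach i hi).symm.trans (reach j hj)

end Pool.Agent.R85.TwistGraph
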